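import Pool.Agent.MP_aee211_co.H75.Build

/-! Explicit minimum genus embeddings of `K_{m,n}` with `m` even and `n` odd. -/

namespace Pool.Agent.MP_aee211_co.H75

open Relation

/-- The sequence `0, 1, 0, 1, ..., 0, 1, 2`. -/
def pseq {n : ℕ} (j : ZMod n) : ℕ := if j.val + 1 = n then 2 else j.val % 2

theorem pseq_cases {n : ℕ} [NeZero n] (hn : Odd n) (h3 : 3 ≤ n) (j : ZMod n) :
    (j.val + 1 = n ∧ pseq j = 2 ∧ pseq (j + 1) = 0) ∨
    (j.val + 1 ≠ n ∧ (pseq j = pseq (j + 1) + 1 ∨ pseq (j + 1) = pseq j + 1)) := by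
  have : Fact (1 < n) := ⟨by omega⟩
  have h1 : (j + 1).val = (j.val + 1) % n := by rw [ZMod.val_add, ZMod.val_one]
  have h2 := ZMod.val_lt j
  obtain ⟨c, hc⟩ := hn
  unfold pseq
  by_cases h : j.val + 1 = n
  · left
    rw [h, Nat.mod_self] at h1
    rw [h1, if_pos h, if_neg (by omega)]
    exact ⟨h, rfl, rfl⟩
  · right
    rw [Nat.mod_eq_of_lt (by omega)] at h1
    rw [h1, if_neg h]
    refine ⟨h, ?_⟩
    split_ifs <;> omega

theorem pseq_vals {n : ℕ} [NeZero n] (h3 : 3 ≤ n) (i : ℕ) (hi : i ≤ 2) :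
    ∃ j : ZMod n, pseq j = i := by
  have h0 : ∀ c : ℕ, c < n → ((c : ZMod n)).val = c := fun c hc => ZMod.val_cast_of_lt hc
  interval_cases i
  · exact ⟨(0 : ℕ), by unfold pseq; rw [h0 0 (by omega), if_neg (by omega)]⟩
  · exact ⟨(1 : ℕ), by unfold pseq; rw [h0 1 (by omega), if_neg (by omega)]⟩
  · exact ⟨(n - 1 : ℕ), by unfold pseq; rw [h0 (n - 1) (by omega), if_pos (by omega)]⟩

theorem rtg_of_unit {s : ℕ} [NeZero s] {δ : ZMod s} (hδ : IsUnit δ) {r : ZMod s → ZMod s → Prop}
    (h : ∀ x, ReflTransGen r x (x + δ)) (x y : ZMod s) : ReflTransGen r x y := by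
  obtain ⟨u, rfl⟩ := hδ
  have key : ∀ i : ℕ, ReflTransGen r x (x + i * (u : ZMod s)) := by
    intro i
    induction i with
    | zero => simpa using ReflTransGen.refl
    | succ i ih =>
      refine ih.trans ?_
      have := h (x + i * (u : ZMod s))
      rwa [show x + i * (u : ZMod s) + u = x + ((i + 1 : ℕ) : ZMod s) * u by push_cast; ring]
        at this
  have := key ((y - x) * (u⁻¹ : (ZMod s)ˣ)).val
  rwa [ZMod.natCast_zmod_val, Units.inv_mul_cancel_right, add_sub_cancel] at this

theorem two_unit {s : ℕ} (hs : Odd s) : IsUnit (2 : ZMod s) := by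
  have := (ZMod.isUnit_iff_coprime 2 s).2 (Nat.coprime_two_left.2 hs)
  simpa using this

theorem pseq_unit {n s : ℕ} [NeZero n] (hn : Odd n) (h3 : 3 ≤ n) (j : ZMod n)
    (h : j.val + 1 ≠ n ∨ Odd s) : IsUnit ((pseq j : ZMod s) - pseq (j + 1)) := by
  rcases pseq_cases hn h3 j with ⟨h1, h2, h4⟩ | ⟨-, h2 | h2⟩
  · rw [h2, h4]
    simpa using two_unit (h.resolve_left (fun h => h h1))
  · rw [h2]; simp
  · rw [h2]; simp

section Orient

variable {X : Type}

/-- The matching between the two halves given by a bijection. -/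
def sh (σ : Equiv.Perm X) (a : Bool × X) : Bool × X :=
  if a.1 then (false, σ a.2) else (true, σ.symm a.2)

theorem sh_sh (σ : Equiv.Perm X) (a : Bool × X) : sh σ (sh σ a) = a := by
  obtain ⟨b, x⟩ := a
  cases b <;> simp [sh]

theorem sh_fst (σ : Equiv.Perm X) (a : Bool × X) : (sh σ a).1 = !a.1 := by
  obtain ⟨b, x⟩ := a
  cases b <;> simp [sh]

theorem sh_trans (σ τ : Equiv.Perm X) (h : ∀ x y, ReflTransGen (fun x y => σ x = τ y) x y)
    (a a' : Bool × X) : ReflTransGen (fun x y => y = sh σ x ∨ y = sh τ x) a a' := by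
  have key : ∀ x y, ReflTransGen (fun x y => y = sh σ x ∨ y = sh τ x) (true, x) (true, y) := by
    intro x y
    induction h x y with
    | refl => exact ReflTransGen.refl
    | @tail b c _ hbc ih =>
      refine (ih.tail (c := (false, σ b)) (Or.inl (by simp [sh]))).tail (Or.inr ?_)
      simp [sh, hbc]
  obtain ⟨b, x⟩ := a
  obtain ⟨b', x'⟩ := a'
  have h1 : ∀ y, ReflTransGen (fun x y => y = sh σ x ∨ y = sh τ x) (true, y) (b', x') := by
    intro y
    cases b'
    · exact (key y (σ.symm x')).tail (Or.inl (by simp [sh]))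
    · exact key y x'
  cases b
  · exact ReflTransGen.head (b := (true, σ.symm x)) (Or.inl (by simp [sh])) (h1 _)
  · exact h1 x

theorem orient_general [Fintype X] {n : ℕ} [NeZero n] (σ τ : ZMod n → Equiv.Perm X)
    (htr : ∀ j x y, ReflTransGen (fun x y => σ j x = τ j y) x y) (f g : ZMod n → X → X)
    (h1 : ∀ j x, g j (σ j x) = f j x) (h2 : ∀ j x, g (j + 1) (τ j x) = f (j + 1) x)
    (I : Finset (ZMod n × X)) (hI : ∀ l ∈ I, f l.1 l.2 = l.2) :
    ∃ M : Scheme (completeBipartiteGraph (Bool × X) (ZMod n)), M.Orientable ∧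
      2 * (Fintype.card X : ℤ) + n - 2 * Fintype.card X * n + I.card ≤ M.euler := by
  obtain ⟨M, hM1, hM2, -⟩ := exists_scheme_bip (fun j => sh (σ j)) (fun j => sh (τ j))
    (fun _ a => a.1) (fun j => sh_sh _) (fun j => sh_sh _) (fun j => sh_fst _)
    (fun j => sh_fst _) (fun j => sh_trans _ _ (htr j))
    (fun j a => if a.1 then f j a.2 else g j a.2)
    (by
      rintro j ⟨b, x⟩
      cases b
      · simp [sh, ← h1]
      · simp [sh, h1])
    (by
      rintro j ⟨b, x⟩
      cases b
      · simp [sh, ← h2]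
      · simp [sh, h2])
    I (fun l hl => ⟨(true, l.2), by simpa using hI l hl⟩)
  refine ⟨M, hM2 (fun _ _ _ => rfl), ?_⟩
  rw [Fintype.card_prod, Fintype.card_bool] at hM1
  push_cast at hM1
  exact hM1

theorem swap_trans {s : ℕ} [NeZero s] (hs : Even s) (x y : ZMod s) :
    ReflTransGen (fun x y : ZMod s => Equiv.swap (0 : ZMod s) 1 x + 2 = y) x y := by
  set r := fun x y : ZMod s => Equiv.swap (0 : ZMod s) 1 x + 2 = y with hr
  have hs2 : 2 ≤ s := by
    obtain ⟨c, hc⟩ := hs
    have := NeZero.ne s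
    omega
  have step : ∀ i : ℕ, 2 ≤ i → i < s → r i ((i + 2 : ℕ) : ZMod s) := by
    intro i h1 h2
    have h0 : (i : ZMod s) ≠ 0 := by
      intro h
      have := congrArg ZMod.val h
      rw [ZMod.val_cast_of_lt h2, ZMod.val_zero] at this
      omega
    have h1' : (i : ZMod s) ≠ 1 := by
      intro h
      have := congrArg ZMod.val h
      rw [ZMod.val_cast_of_lt h2, ← Nat.cast_one, ZMod.val_cast_of_lt (by omega)] at this
      omega
    simp only [hr]
    rw [Equiv.swap_apply_of_ne_of_ne h0 h1']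
    push_cast; rfl
  have up : ∀ c i : ℕ, 2 ≤ i → i + 2 * c ≤ s + 1 →
      ReflTransGen r (i : ZMod s) ((i + 2 * c : ℕ) : ZMod s) := by
    intro c
    induction c with
    | zero => intro i _ _; exact ReflTransGen.refl
    | succ c ih =>
      intro i h1 h2
      have := step (i + 2 * c) (by omega) (by omega)
      rw [show i + 2 * c + 2 = i + 2 * (c + 1) by ring] at this
      exact (ih i h1 (by omega)).tail this
  obtain ⟨c, hc⟩ := hs
  have e0 : ((s : ℕ) : ZMod s) = 0 := ZMod.natCast_self s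
  have e1 : ((s + 1 : ℕ) : ZMod s) = 1 := by push_cast; rw [e0, zero_add]
  have s0 : r 0 ((3 : ℕ) : ZMod s) := by simp only [hr]; rw [Equiv.swap_apply_left]; norm_num
  have s1 : r 1 ((2 : ℕ) : ZMod s) := by simp only [hr]; rw [Equiv.swap_apply_right]; norm_num
  have rep : ∀ x : ZMod s, ∃ i : ℕ, 2 ≤ i ∧ i ≤ s + 1 ∧ x = i := by
    intro x
    refine ⟨(x - 2).val + 2, by omega, by have := ZMod.val_lt (x - 2); omega, ?_⟩
    push_cast
    rw [ZMod.natCast_zmod_val]; ring
  have t31 : ReflTransGen r ((3 : ℕ) : ZMod s) 1 := by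
    have := up (c - 1) 3 (by omega) (by omega)
    rwa [show 3 + 2 * (c - 1) = s + 1 by omega, e1] at this
  have t20 : ReflTransGen r ((2 : ℕ) : ZMod s) 0 := by
    have := up (c - 1) 2 (by omega) (by omega)
    rwa [show 2 + 2 * (c - 1) = s by omega, e0] at this
  have to2 : ∀ x : ZMod s, ReflTransGen r x ((2 : ℕ) : ZMod s) := by
    intro x
    obtain ⟨i, h1, h2, rfl⟩ := rep x
    rcases Nat.even_or_odd' i with ⟨d, rfl | rfl⟩
    · have := up (c - d) (2 * d) h1 (by omega)
      rw [show 2 * d + 2 * (c - d) = s by omega, e0] at this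
      exact ((this.tail s0).trans t31).tail s1
    · have := up (c - d) (2 * d + 1) h1 (by omega)
      rw [show 2 * d + 1 + 2 * (c - d) = s + 1 by omega, e1] at this
      exact this.tail s1
  have from2 : ∀ x : ZMod s, ReflTransGen r ((2 : ℕ) : ZMod s) x := by
    intro x
    obtain ⟨i, h1, h2, rfl⟩ := rep x
    rcases Nat.even_or_odd' i with ⟨d, rfl | rfl⟩
    · have := up (d - 1) 2 (by omega) (by omega)
      rwa [show 2 + 2 * (d - 1) = 2 * d by omega] at this
    · have := up (d - 1) 3 (by omega) (by omega)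
      rw [show 3 + 2 * (d - 1) = 2 * d + 1 by omega] at this
      exact (t20.tail s0).trans this
  exact (to2 x).trans (from2 y)

theorem embedsS_bip {s n h : ℕ} [NeZero s] [NeZero n] (hn : Odd n) (h3 : 3 ≤ n)
    (hh : ((s : ℤ) - 1) * (n - 2) ≤ 2 * h) :
    EmbedsS (completeBipartiteGraph (Bool × ZMod s) (ZMod n)) h := by
  rcases Nat.even_or_odd s with hs | hs
  · obtain ⟨M, hM1, hM2⟩ := orient_general (X := ZMod s) (n := n)
      (fun j => if j.val + 1 = n then (Equiv.swap 0 1).trans (Equiv.addRight 2)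
        else Equiv.addRight (pseq j))
      (fun j => Equiv.addRight (pseq (j + 1)))
      (by
        intro j x y
        by_cases hj : j.val + 1 = n
        · rcases pseq_cases hn h3 j with ⟨-, -, h4⟩ | ⟨h1, -⟩
          · simpa [hj, h4] using swap_trans hs x y
          · exact absurd hj h1
        · refine rtg_of_unit (pseq_unit hn h3 j (Or.inl hj)) (fun x => ReflTransGen.single ?_) x y
          simp [hj, add_assoc])
      (fun j x => if j.val + 1 = n ∧ x = 1 then 0 else x)
      (fun j x => if j.val + 1 = n ∧ x - pseq j = 1 then 0 else x - pseq j)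
      (by
        intro j x
        by_cases hj : j.val + 1 = n
        · have h4 : pseq j = 2 := by simp [pseq, hj]
          simp only [hj, h4, true_and, if_true, Equiv.trans_apply, Equiv.coe_addRight,
            Nat.cast_ofNat, add_sub_cancel_right]
          by_cases h0 : x = 0
          · simp [h0]
          · by_cases h1 : x = 1
            · simp [h1]
            · rw [Equiv.swap_apply_of_ne_of_ne h0 h1]
        · simp [hj])
      (by intro j x; simp)
      (Finset.univ.erase (((n - 1 : ℕ) : ZMod n), 1))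
      (by
        rintro ⟨j, x⟩ hl
        rw [if_neg]
        rintro ⟨h1, h2⟩
        apply (Finset.mem_erase.1 hl).1
        simp only at h1 h2
        rw [h2, ← ZMod.natCast_zmod_val j, show j.val = n - 1 by omega])
    refine ⟨M, hM1, le_trans ?_ hM2⟩
    rw [Finset.card_erase_of_mem (Finset.mem_univ _), Finset.card_univ, Fintype.card_prod,
      ZMod.card, ZMod.card, Nat.cast_sub (Nat.one_le_iff_ne_zero.2
        (Nat.mul_ne_zero (NeZero.ne n) (NeZero.ne s)))]
    obtain ⟨a, rfl⟩ := hs
    obtain ⟨b, rfl⟩ := hn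
    push_cast at hh ⊢
    have : ((a : ℤ) + a - 1) * (2 * b + 1 - 2) = 2 * (2 * a * b - a - b) + 1 := by ring
    have h5 : ((a : ℤ) + a - 1) * (2 * b + 1 - 2) + 1 ≤ 2 * h := by omega
    nlinarith
  · obtain ⟨M, hM1, hM2⟩ := orient_general (X := ZMod s) (n := n)
      (fun j => Equiv.addRight (pseq j)) (fun j => Equiv.addRight (pseq (j + 1)))
      (by
        intro j x y
        refine rtg_of_unit (pseq_unit hn h3 j (Or.inr hs)) (fun x => ReflTransGen.single ?_) x y
        simp [add_assoc])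
      (fun j x => x) (fun j x => x - pseq j) (by intro j x; simp) (by intro j x; simp)
      Finset.univ (fun _ _ => rfl)
    refine ⟨M, hM1, le_trans ?_ hM2⟩
    rw [Finset.card_univ, Fintype.card_prod, ZMod.card, ZMod.card]
    push_cast
    nlinarith

end Orient

section Nonorient

variable {A : Type}

theorem exists_flip [Nonempty A] (N N' : A → A) (hN : ∀ a, N (N a) = a) (hN' : ∀ a, N' (N' a) = a)
    (fN : ∀ a, N a ≠ a) (fN' : ∀ a, N' a ≠ a)
    (htr : ∀ a a', ReflTransGen (fun x y => y = N x ∨ y = N' x) a a') :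
    ∃ ε : A → Bool, (∀ a, ε (N a) = !ε a) ∧ ∀ a, ε (N' a) = !ε a := by
  classical
  obtain ⟨a0⟩ := ‹Nonempty A›
  set ν : Equiv.Perm A := Function.Involutive.toPerm N hN with hν
  set ν' : Equiv.Perm A := Function.Involutive.toPerm N' hN' with hν'
  set ρ := ν' * ν with hρ
  have hνν : ν * ν = 1 := by ext a; exact hN a
  have hνν' : ν' * ν' = 1 := by ext a; exact hN' a
  have hconj : ν * ρ * ν⁻¹ = ρ⁻¹ := by
    rw [hρ, mul_inv_rev, inv_eq_of_mul_eq_one_right hνν', inv_eq_of_mul_eq_one_right hνν,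
      mul_assoc, mul_assoc, hνν, mul_one]
  have hc : ∀ i : ℤ, ν * ρ ^ i = ρ ^ (-i) * ν := by
    intro i
    rw [zpow_neg, ← inv_zpow, ← hconj, conj_zpow]
    simp
  have hN'ρ : ∀ a, N' a = ρ (N a) := by
    intro a
    show N' a = N' (N (N a))
    rw [hN]
  have hA : ∀ a, ¬ ρ.SameCycle a (N a) := by
    rintro a ⟨i, hi⟩
    have h1 : ∀ j : ℤ, N ((ρ ^ j) a) = (ρ ^ (i - j)) a := by
      intro j
      have := congrArg (fun f : Equiv.Perm A => f a) (hc j)
      simp only [Equiv.Perm.mul_apply] at this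
      change N ((ρ ^ j) a) = (ρ ^ (-j)) (N a) at this
      rw [this, ← hi, ← Equiv.Perm.mul_apply, ← zpow_add]
      congr 2; ring
    rcases Int.even_or_odd' i with ⟨j, rfl | rfl⟩
    · apply fN ((ρ ^ j) a)
      rw [h1]; congr 2; ring
    · apply fN' ((ρ ^ (j + 1)) a)
      rw [hN'ρ, h1, ← Equiv.Perm.mul_apply, ← zpow_one_add]
      congr 2; ring
  have hB : ∀ a, ρ.SameCycle a0 a ∨ ρ.SameCycle a0 (N a) := by
    intro a
    induction htr a0 a with
    | refl => exact Or.inl (Equiv.Perm.SameCycle.refl _ _)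
    | @tail b c _ hbc ih =>
      rcases hbc with rfl | rfl
      · rw [hN]; exact ih.symm
      · rcases ih with ih | ih
        · right
          rw [← Equiv.Perm.sameCycle_apply_right, ← hN'ρ, hN']
          exact ih
        · left
          rw [hN'ρ, Equiv.Perm.sameCycle_apply_right]
          exact ih
  have hC : ∀ a, decide (ρ.SameCycle a0 (N a)) = !decide (ρ.SameCycle a0 a) := by
    intro a
    by_cases h : ρ.SameCycle a0 a
    · have : ¬ ρ.SameCycle a0 (N a) := fun h' => hA a (h.symm.trans h')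
      simp [h, this]
    · simp [h, (hB a).resolve_left h]
  refine ⟨fun a => decide (ρ.SameCycle a0 a), hC, fun a => ?_⟩
  rw [← hC, hN'ρ]
  simp only [Equiv.Perm.sameCycle_apply_right]

/-- The standard one-factors of the complete graph on `Option (ZMod r)`. -/
def gk {r : ℕ} (i : ZMod r) : Option (ZMod r) → Option (ZMod r)
  | none => some i
  | some x => if x = i then none else some (2 * i - x)

theorem gk_gk {r : ℕ} (i : ZMod r) (a : Option (ZMod r)) : gk i (gk i a) = a := by
  rcases a with _ | x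
  · simp [gk]
  · by_cases h : x = i
    · simp [gk, h]
    · have : 2 * i - x ≠ i := fun h' => h (by linear_combination -h')
      simp [gk, h, this]

theorem gk_ne {r : ℕ} (hr : Odd r) (i : ZMod r) (a : Option (ZMod r)) : gk i a ≠ a := by
  rcases a with _ | x
  · simp [gk]
  · by_cases h : x = i
    · simp [gk, h]
    · simp only [gk, h, if_false, ne_eq, Option.some.injEq]
      intro h'
      apply h
      exact (two_unit hr).mul_left_cancel (by linear_combination -h')

theorem gk_trans {r : ℕ} [NeZero r] (hr : Odd r) (i j : ZMod r) (hij : IsUnit (i - j))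
    (a a' : Option (ZMod r)) : ReflTransGen (fun x y => y = gk i x ∨ y = gk j x) a a' := by
  set R := fun x y => y = gk i x ∨ y = gk j x with hR
  have h1 : ∀ x, ReflTransGen R (some x) (some (2 * i - x)) := by
    intro x
    by_cases h : x = i
    · rw [show 2 * i - x = x by rw [h]; ring]
    · exact ReflTransGen.single (Or.inl (by simp [gk, h]))
  have h2 : ∀ x, ReflTransGen R (some x) (some (2 * j - x)) := by
    intro x
    by_cases h : x = j
    · rw [show 2 * j - x = x by rw [h]; ring]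
    · exact ReflTransGen.single (Or.inr (by simp [gk, h]))
  have h3 : ∀ x y, ReflTransGen R (some x) (some y) := by
    intro x y
    have := rtg_of_unit ((two_unit hr).mul hij)
      (r := fun x y => ReflTransGen R (some x) (some y)) (fun x => ReflTransGen.single (by
        have := (h2 x).trans (h1 _)
        rwa [show 2 * i - (2 * j - x) = x + 2 * (i - j) by ring] at this)) x y
    induction this with
    | refl => exact ReflTransGen.refl
    | tail _ hbc ih => exact ih.trans hbc
  have h4 : ∀ x, ReflTransGen R (some x) a' := by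
    intro x
    rcases a' with _ | y
    · exact (h3 x i).tail (Or.inl (by simp [gk]))
    · exact h3 x y
  rcases a with _ | x
  · exact ReflTransGen.head (b := some i) (Or.inl rfl) (h4 i)
  · exact h4 x

theorem embedsN_bip {r n g : ℕ} [NeZero r] [NeZero n] (hr : Odd r) (hr3 : 3 ≤ r) (hn : Odd n)
    (h3 : 3 ≤ n) (hg : ((r : ℤ) - 1) * (n - 2) ≤ 2 * g) :
    EmbedsN (completeBipartiteGraph (Option (ZMod r)) (ZMod n)) g := by
  classical
  have htr : ∀ j : ZMod n, ∀ a a', ReflTransGen (fun x y => y = gk (pseq j : ZMod r) x ∨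
      y = gk (pseq (j + 1) : ZMod r) x) a a' :=
    fun j => gk_trans hr _ _ (pseq_unit hn h3 j (Or.inr hr))
  have hε : ∀ j : ZMod n, ∃ ε : Option (ZMod r) → Bool,
      (∀ a, ε (gk (pseq j : ZMod r) a) = !ε a) ∧ ∀ a, ε (gk (pseq (j + 1) : ZMod r) a) = !ε a :=
    fun j => exists_flip _ _ (gk_gk _) (gk_gk _) (gk_ne hr _) (gk_ne hr _) (htr j)
  choose ε hε1 hε2 using hε
  set f : ZMod n × Option (ZMod r) → ZMod n × Sym2 (Option (ZMod r)) :=
    fun x => (x.1, s(x.2, gk (pseq x.1 : ZMod r) x.2)) with hf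
  obtain ⟨M, hM1, -, hM3⟩ := exists_scheme_bip (fun j : ZMod n => gk (pseq j : ZMod r))
    (fun j => gk (pseq (j + 1) : ZMod r)) ε (fun j => gk_gk _) (fun j => gk_gk _) hε1 hε2 htr
    (fun j a => s(a, gk (pseq j : ZMod r) a))
    (by intro j a; rw [gk_gk, Sym2.eq_swap]) (by intro j a; rw [gk_gk, Sym2.eq_swap])
    (Finset.univ.image f) (by
      intro l hl
      obtain ⟨x, -, rfl⟩ := Finset.mem_image.1 hl
      exact ⟨x.2, rfl⟩)
  refine ⟨M, Or.inl ⟨fun hM => ?_, le_trans ?_ hM1⟩⟩
  · obtain ⟨χ, hχ⟩ := hM3 hM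
    obtain ⟨j0, h0⟩ := pseq_vals h3 0 (by omega)
    obtain ⟨j1, h1⟩ := pseq_vals h3 1 (by omega)
    obtain ⟨j2, h2⟩ := pseq_vals h3 2 (by omega)
    have e0 := hχ j0 none
    have e1 := hχ j1 (some 0)
    have e2 := hχ j2 none
    have : Fact (1 < r) := ⟨by omega⟩
    simp only [h0, h1, h2, gk, Nat.cast_zero, Nat.cast_one, Nat.cast_ofNat, zero_ne_one,
      if_false, mul_one, sub_zero] at e0 e1 e2
    rw [e1, e0] at e2
    simp at e2
  · have := Finset.card_le_mul_card_image (f := f) Finset.univ 2 (by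
      intro l hl
      obtain ⟨⟨j, a⟩, -, rfl⟩ := Finset.mem_image.1 hl
      refine le_trans (Finset.card_le_card (t := {(j, a), (j, gk (pseq j : ZMod r) a)}) ?_)
        Finset.card_le_two
      rintro ⟨j', a'⟩ h
      simp only [hf, Finset.mem_filter, Finset.mem_univ, true_and, Prod.mk.injEq,
        Sym2.eq_iff] at h
      obtain ⟨rfl, h | h⟩ := h
      · simp [h.1]
      · simp [h.1])
    rw [Finset.card_univ, Fintype.card_prod, Fintype.card_option, ZMod.card, ZMod.card] at this
    rw [Fintype.card_option, ZMod.card]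
    have h5 : (n : ℤ) * (r + 1) ≤ 2 * (Finset.univ.image f).card := by exact_mod_cast this
    push_cast
    nlinarith

end Nonorient

end Pool.Agent.MP_aee211_co.H75
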