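import Pool.Agent.MP_aee211_co.H75.Build

/-! The Herschel graph (vertex-face incidence graph of the triangular prism). -/

namespace Pool.Agent.MP_aee211_co.H75

theorem connected_of_rank {V : Type} {G : SimpleGraph V} (S : Set V) (root : V) (hroot : root ∉ S)
    (rk : V → ℕ) (h : ∀ v, v ∉ S → v = root ∨ ∃ u, u ∉ S ∧ G.Adj u v ∧ rk u < rk v) :
    (G.induce Sᶜ).Connected := by
  rw [SimpleGraph.connected_iff_exists_forall_reachable]
  refine ⟨⟨root, hroot⟩, ?_⟩
  have key : ∀ n v (hv : v ∉ S), rk v = n → (G.induce Sᶜ).Reachable ⟨root, hroot⟩ ⟨v, hv⟩ := by
    intro n
    induction n using Nat.strong_induction_on with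
    | _ n ih =>
      intro v hv hn
      rcases h v hv with rfl | ⟨u, hu, huv, hlt⟩
      · rfl
      · exact (ih (rk u) (hn ▸ hlt) u hu rfl).trans (SimpleGraph.Adj.reachable huv)
  rintro ⟨v, hv⟩
  exact key _ v hv rfl

/-- Table lookup. -/
def look (t i : ℕ) : ℕ := t / 16 ^ i % 16

/-- Adjacency table. -/
def hA (v w : Fin 11) : Bool := Nat.testBit 58447574589281295404954757942084928 (11 * v.val + w.val)

/-- The Herschel graph. -/
def herschel : SimpleGraph (Fin 11) where
  Adj v w := hA v w = true
  symm.symm := by decide +kernel
  loopless.irrefl := by decide +kernel

instance : DecidableRel herschel.Adj := fun v w => inferInstanceAs (Decidable (hA v w = true))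

/-- Rotation table. -/
def hR (v w : Fin 11) : Fin 11 := Fin.ofNat 11
  (look 33076651285769630558373557973524887588314949463470257174249140686723221239543736823681882371355154294854448259250232747071585800751761556268921360 (11 * v.val + w.val))

/-- Inverse rotation table. -/
def hRi (v w : Fin 11) : Fin 11 := Fin.ofNat 11
  (look 33076654208385301736945771984429236996477738117800277227525956320909892316802583894138232667397347906149033377482980919181490867955858379663225360 (11 * v.val + w.val))

/-- Face table. -/
def hL (v w : Fin 11) : ℕ :=
  look 14956890107770161737971226417516633382323153896489476519279517056344029380115283150208712701999620209840760358011978232588404872437546614784 (11 * v.val + w.val)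

/-- Distance table after deleting two vertices. -/
def hD (x y v : Fin 11) : ℕ :=
  look 57974246686835305055789979265596762692298483796254039006322072430415593820509498939398000779560434286172997386108481134380998138887543772482211352557554898460229876287358545789826633135375882888717092380235310603621699091016590169415339665914238133225003547210107811137472366071667337007341123346455213114456710857257198539382517106998154208655453682678422609485892428718718273991427958471078022251548454574992269931547346007287921447899439675961913403199497491462501001845871426101003131202119648302707908900569469846184625929267116585359826583854381624641914699820876003544454091622237978713170406928949954510830602441724516905093411354229835150469723877278057338729471891798351256982809186584432187102869915222562735537600394496333688566091551540361049722901969790690863736447580142675673174078243153389475815807268835985227346389311907148739535146667691074213075000767682753211986942384992038431892672244838152404062281167607262803486626018536727446554897616281257076805363753934339584029108566551607597221277654054475195710154172041732476598924621351698487535229040723363962649519789701177553682636291213125249303021741926548286617557688341658559337920271735520963151134144685305448041357956102609072356672329249292049571196595382079997226448377321158347794161444311161246642026998533510716361177654619956148651923044726593684246717250154308955896730526010438070163380899750787719265781364051362794819653265751989193713295107850209273067949271796094394934346814372946776009955975849921734418506419183722608141194111911841525739341872981960848750090576323503040509870985782951604183512829780959744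 (11 * (11 * x.val + y.val) + v.val)

/-- Root after deleting two vertices. -/
def hRoot (x y : Fin 11) : Fin 11 := if x ≠ 0 ∧ y ≠ 0 then 0 else if x ≠ 1 ∧ y ≠ 1 then 1 else 2

theorem hR_left : ∀ v w, hRi v (hR v w) = w := by decide +kernel
theorem hR_right : ∀ v w, hR v (hRi v w) = w := by decide +kernel

/-- Local rotations. -/
def hP (v : Fin 11) : Equiv.Perm (Fin 11) := ⟨hR v, hRi v, hR_left v, hR_right v⟩

theorem herschel_kconn : KConn herschel 3 := by
  refine ⟨by simp, fun S hS => ?_⟩
  have h2 : ∀ x y : Fin 11, (herschel.induce ((({x, y} : Finset (Fin 11)) : Set (Fin 11))ᶜ)).Connected := by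
    intro x y
    have h0 : ∀ x y, hRoot x y ≠ x ∧ hRoot x y ≠ y := by decide +kernel
    have h1 : ∀ x y v, v ≠ x → v ≠ y → v = hRoot x y ∨
        ∃ u, (u ≠ x ∧ u ≠ y) ∧ hA u v = true ∧ hD x y u < hD x y v := by decide +kernel
    refine connected_of_rank _ (hRoot x y) (by simpa using h0 x y) (hD x y) fun v hv => ?_
    simp only [Finset.coe_insert, Finset.coe_singleton, Set.mem_insert_iff,
      Set.mem_singleton_iff, not_or] at hv ⊢
    exact h1 x y v hv.1 hv.2
  have : S.card = 0 ∨ S.card = 1 ∨ S.card = 2 := by omega
  rcases this with h | h | h
  · rw [Finset.card_eq_zero] at h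
    subst h
    have h1 : ∀ v : Fin 11, v = 0 ∨ ∃ u, hA u v = true ∧ look 1310789345824 u.val < look 1310789345824 v.val := by
      decide +kernel
    refine connected_of_rank _ 0 (by simp) (fun v => look 1310789345824 v.val) fun v _ => ?_
    rcases h1 v with h | ⟨u, h, h'⟩
    · exact Or.inl h
    · exact Or.inr ⟨u, by simp, h, h'⟩
  · obtain ⟨x, rfl⟩ := Finset.card_eq_one.1 h
    have := h2 x x
    rwa [Finset.pair_eq_singleton] at this
  · obtain ⟨x, y, -, rfl⟩ := Finset.card_eq_two.1 h
    exact h2 x y

theorem herschel_no : ¬ HasTwoFactor herschel :=
  no_twoFactor (fun v => decide (v.val < 6)) (by decide +kernel) (by decide +kernel)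

theorem herschel_scheme : ∃ M : Scheme herschel, M.Orientable ∧ 2 ≤ M.euler := by
  have hR' : ∀ v w, herschel.Adj v (hP v w) ↔ herschel.Adj v w := by decide +kernel
  have hcyc : ∀ v w w', herschel.Adj v w → herschel.Adj v w' → (hP v).SameCycle w w' := by
    have : ∀ v w w', herschel.Adj v w → herschel.Adj v w' →
        ∃ i : Fin 4, (hR v)^[i.val] w = w' := by decide +kernel
    intro v w w' h h'
    obtain ⟨i, hi⟩ := this v w w' h h'
    exact ⟨i.val, by rw [zpow_natCast, Equiv.Perm.coe_pow]; exact hi⟩
  refine ⟨mkScheme herschel hP hR' hcyc (fun _ _ => false) (fun _ _ _ => rfl),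
    ⟨fun _ => false, fun _ => rfl⟩, ?_⟩
  have h1 := mk_faces_ge hP hR' hcyc (fun _ _ => false) (fun _ _ _ => rfl)
    (fun v w b => if b then hL w v else hL v w) (by intro v w b _; cases b <;> rfl)
    (by decide +kernel) (Finset.range 9) (by decide +kernel)
  have h2 : Nat.card herschel.edgeSet = 18 := by
    have h3 := herschel.sum_degrees_eq_twice_card_edges
    have h4 : ∑ v, herschel.degree v = 36 := by decide +kernel
    rw [Nat.card_eq_fintype_card, ← SimpleGraph.edgeFinset_card]
    omega
  unfold Scheme.euler
  rw [h2]
  simp only [Finset.card_range] at h1
  simp only [Nat.card_eq_fintype_card, Fintype.card_fin]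
  omega

end Pool.Agent.MP_aee211_co.H75
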