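import Pool.Agent.MP_aee211_co.H75.Upper
import Pool.Agent.MP_aee211_co.H75.Families
import Pool.Agent.MP_aee211_co.H75.Herschel

/-! Assembly of the two bounds. -/

namespace Pool.Agent.MP_aee211_co.H75

theorem sqrt_iff (γ k : ℕ) (hk : 2 ≤ k) :
    k < (5 + Nat.sqrt (1 + 8 * γ)) / 2 ↔ ((k : ℤ) - 1) * (k - 2) ≤ 2 * γ := by
  have h1 : k < (5 + Nat.sqrt (1 + 8 * γ)) / 2 ↔ 2 * k - 3 ≤ Nat.sqrt (1 + 8 * γ) := by omega
  rw [h1, Nat.le_sqrt]
  obtain ⟨j, rfl⟩ : ∃ j, k = j + 2 := ⟨k - 2, by omega⟩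
  rw [show 2 * (j + 2) - 3 = 2 * j + 1 by omega]
  push_cast
  constructor
  · intro h
    have : ((2 * j + 1) * (2 * j + 1) : ℤ) ≤ 1 + 8 * γ := by exact_mod_cast h
    nlinarith
  · intro h
    have : ((2 * j + 1) * (2 * j + 1) : ℤ) ≤ 1 + 8 * γ := by nlinarith
    exact_mod_cast this

/-- Common skeleton: `E` is the embeddability predicate of a surface of Euler genus `γ`. -/
theorem isLeast_of (γ : ℕ) (E : ∀ {V : Type}, SimpleGraph V → Prop)
    (hE : ∀ {V : Type} (G : SimpleGraph V), E G → ∃ M : Scheme G, 2 - (γ : ℤ) ≤ M.euler)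
    (hH : E herschel)
    (hK : ∀ k : ℕ, 4 ≤ k → ((k : ℤ) - 1) * (k - 2) ≤ 2 * γ →
      ∃ (V : Type) (_ : Finite V) (G : SimpleGraph V), KConn G k ∧ E G ∧ ¬ HasTwoFactor G) :
    IsLeast {k : ℕ | ∀ (V : Type) [Finite V] (G : SimpleGraph V),
      KConn G k → E G → HasTwoFactor G} (max 4 ((5 + Nat.sqrt (1 + 8 * γ)) / 2)) := by
  constructor
  · intro V _ G hk hG
    by_contra hno
    obtain ⟨M, hM⟩ := hE G hG
    have h1 := upper (le_max_left _ _) hk M γ hM hno
    rw [← sqrt_iff γ _ (le_trans (by norm_num) (le_max_left _ _))] at h1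
    exact absurd (le_max_right _ _) (not_le.2 h1)
  · intro k hk
    by_contra hlt
    rw [not_le] at hlt
    by_cases h4 : k < 4
    · exact herschel_no (hk _ herschel (herschel_kconn.mono (by omega)) hH)
    · have h5 : k < (5 + Nat.sqrt (1 + 8 * γ)) / 2 := by omega
      obtain ⟨V, _, G, h1, h2, h3⟩ := hK k (by omega) ((sqrt_iff γ k (by omega)).1 h5)
      exact h3 (hk V G h1 h2)

theorem exists_S (h k : ℕ) (hk : 4 ≤ k) (hh : ((k : ℤ) - 1) * (k - 2) ≤ 2 * ((2 * h : ℕ) : ℤ)) :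
    ∃ (V : Type) (_ : Finite V) (G : SimpleGraph V),
      KConn G k ∧ EmbedsS G h ∧ ¬ HasTwoFactor G := by
  push_cast at hh
  rcases Nat.even_or_odd' k with ⟨s, rfl | rfl⟩
  · have : NeZero s := ⟨by omega⟩
    refine ⟨_, inferInstance, completeBipartiteGraph (Bool × ZMod s) (ZMod (2 * s + 1)),
      kconn_bip (by omega) (by simp) (by simp), embedsS_bip (by simp) (by omega) ?_,
      no_twoFactor_bip (by simp)⟩
    push_cast at hh ⊢
    nlinarith
  · refine ⟨_, inferInstance, completeBipartiteGraph (Bool × ZMod (s + 1)) (ZMod (2 * s + 1)),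
      kconn_bip (by omega) (by simp) (by simp), embedsS_bip (by simp) (by omega) ?_,
      no_twoFactor_bip (by simp; omega)⟩
    push_cast at hh ⊢
    nlinarith

theorem exists_N (g k : ℕ) (hk : 4 ≤ k) (hh : ((k : ℤ) - 1) * (k - 2) ≤ 2 * g) :
    ∃ (V : Type) (_ : Finite V) (G : SimpleGraph V),
      KConn G k ∧ EmbedsN G g ∧ ¬ HasTwoFactor G := by
  rcases Nat.even_or_odd' k with ⟨s, rfl | rfl⟩
  · obtain ⟨s, rfl⟩ : ∃ s', s = s' + 1 := ⟨s - 1, by omega⟩
    refine ⟨_, inferInstance,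
      completeBipartiteGraph (Option (ZMod (2 * s + 1))) (ZMod (2 * (s + 1) + 1)),
      kconn_bip (by omega) (by simp; omega) (by simp),
      embedsN_bip (by simp) (by omega) (by simp) (by omega) ?_,
      no_twoFactor_bip (by simp; omega)⟩
    push_cast at hh ⊢
    nlinarith
  · refine ⟨_, inferInstance,
      completeBipartiteGraph (Option (ZMod (2 * s + 1))) (ZMod (2 * s + 1)),
      kconn_bip (by omega) (by simp) (by simp),
      embedsN_bip (by simp) (by omega) (by simp) (by omega) ?_,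
      no_twoFactor_bip (by simp)⟩
    push_cast at hh ⊢
    nlinarith

theorem final_S (h : ℕ) : IsLeast {k : ℕ | ∀ (V : Type) [Finite V] (G : SimpleGraph V),
      KConn G k → EmbedsS G h → HasTwoFactor G} (max 4 ((5 + Nat.sqrt (1 + 16 * h)) / 2)) := by
  rw [show 16 * h = 8 * (2 * h) by ring]
  refine isLeast_of (2 * h) (fun G => EmbedsS G h) ?_ ?_ (exists_S h)
  · rintro V G ⟨M, -, hM⟩
    exact ⟨M, by push_cast; exact hM⟩
  · obtain ⟨M, h1, h2⟩ := herschel_scheme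
    exact ⟨M, h1, by omega⟩

theorem final_N (g : ℕ) (hg : 1 ≤ g) :
    IsLeast {k : ℕ | ∀ (V : Type) [Finite V] (G : SimpleGraph V),
      KConn G k → EmbedsN G g → HasTwoFactor G} (max 4 ((5 + Nat.sqrt (1 + 8 * g)) / 2)) := by
  refine isLeast_of g (fun G => EmbedsN G g) ?_ ?_ (exists_N g)
  · rintro V G ⟨M, hM | hM⟩
    · exact ⟨M, hM.2⟩
    · exact ⟨M, by omega⟩
  · obtain ⟨M, h1, h2⟩ := herschel_scheme
    exact ⟨M, Or.inr ⟨h1, by omega⟩⟩

end Pool.Agent.MP_aee211_co.H75
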