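import Mathlib

/-!
Embedding schemes (rotation system plus edge signature, as in the Heffter, Edmonds, Ringel, Stahl
description of cellular embeddings of connected graphs), connectivity and 2-factors.
-/

namespace Pool.Agent.MP_aee211_co.H75

/-- An embedding scheme of `G`: a rotation system (a permutation of the darts whose cycles are
exactly the sets of darts with a common initial vertex) together with a signature on the edges
(`sign d = true` when the edge of the dart `d` is twisted). -/
structure Scheme {V : Type} (G : SimpleGraph V) where
  rot : Equiv.Perm G.Dart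
  rot_fst : ∀ d : G.Dart, (rot d).fst = d.fst
  rot_cyc : ∀ d e : G.Dart, d.fst = e.fst → rot.SameCycle d e
  sign : G.Dart → Bool
  sign_symm : ∀ d : G.Dart, sign d.symm = sign d

/-- A flag is a dart `d` with one of its two sides: `(d, false)` is the side of `d` facing `rot d`
and `(d, true)` is the side facing the predecessor of `d` in the rotation.  Two flags are
consecutive on a face if they lie on the same side of an edge at its two ends (on an untwisted
edge `(d, s)` goes to `(d.symm, !s)`, on a twisted edge to `(d.symm, s)`), or if they bound the
same corner at a vertex. -/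
def Scheme.FaceRel {V : Type} {G : SimpleGraph V} (M : Scheme G) (x y : G.Dart × Bool) : Prop :=
  y = (x.1.symm, if M.sign x.1 then x.2 else !x.2) ∨ (x.2 = false ∧ y = (M.rot x.1, true))

/-- The number of faces: classes of flags under the equivalence generated by `FaceRel`. -/
noncomputable def Scheme.faces {V : Type} {G : SimpleGraph V} (M : Scheme G) : ℕ :=
  Nat.card (Quot M.FaceRel)

/-- The Euler characteristic `V - E + F` of the closed surface defined by the scheme. -/
noncomputable def Scheme.euler {V : Type} {G : SimpleGraph V} (M : Scheme G) : ℤ :=
  (Nat.card V : ℤ) - (Nat.card G.edgeSet : ℤ) + (M.faces : ℤ)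

/-- The surface of the scheme is orientable: switching at a set of vertices untwists all edges,
that is, every cycle has an even number of twisted edges. -/
def Scheme.Orientable {V : Type} {G : SimpleGraph V} (M : Scheme G) : Prop :=
  ∃ s : V → Bool, ∀ d : G.Dart, M.sign d = xor (s d.fst) (s d.snd)

/-- A connected graph embeds in `S_h` iff it has a cellular embedding in some `S_j`, `j ≤ h`. -/
def EmbedsS {V : Type} (G : SimpleGraph V) (h : ℕ) : Prop :=
  ∃ M : Scheme G, M.Orientable ∧ 2 - 2 * (h : ℤ) ≤ M.euler

/-- A connected graph embeds in `N_g` (`g ≥ 1`) iff it has a cellular embedding in some `N_j`,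
`j ≤ g`, or in some `S_j` with `2j + 1 ≤ g`. -/
def EmbedsN {V : Type} (G : SimpleGraph V) (g : ℕ) : Prop :=
  ∃ M : Scheme G, (¬ M.Orientable ∧ 2 - (g : ℤ) ≤ M.euler) ∨ (M.Orientable ∧ 3 - (g : ℤ) ≤ M.euler)

/-- More than `k` vertices, and connected after deleting any set of fewer than `k` vertices. -/
def KConn {V : Type} (G : SimpleGraph V) (k : ℕ) : Prop :=
  k < Nat.card V ∧ ∀ S : Finset V, S.card < k → (G.induce ((S : Set V)ᶜ)).Connected

/-- A spanning subgraph in which every vertex has degree exactly two. -/
def HasTwoFactor {V : Type} (G : SimpleGraph V) : Prop :=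
  ∃ H : SimpleGraph V, H ≤ G ∧ ∀ v : V, (H.neighborSet v).ncard = 2

end Pool.Agent.MP_aee211_co.H75
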