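import Mathlib

/-! Linear algebra over `ZMod 2` used in the Euler bound. -/

namespace Pool.Agent.MP_aee211_co.H75

open Module

abbrev F2 := ZMod 2

theorem F2_add_self (x : F2) : x + x = 0 := by
  revert x; decide

theorem F2_eq_of_add {x y : F2} (h : x + y = 0) : x = y := by
  revert x y; decide

theorem F2_ne_zero {x : F2} (h : x ≠ 0) : x = 1 := by
  revert x; decide

theorem fun_add_self {ι : Type} (f : ι → F2) : f + f = 0 := by
  funext i; exact F2_add_self _

theorem rtg_mono {α : Type} {r p : α → α → Prop} (h : ∀ a b, r a b → p a b) {a b : α}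
    (hab : Relation.ReflTransGen r a b) : Relation.ReflTransGen p a b :=
  Relation.ReflTransGen.mono (fun a b => h a b) _ _ hab

/-- Codimension does not grow under intersection and projection. -/
theorem finrank_map_inf {K U U' : Type} [Field K] [AddCommGroup U] [Module K U]
    [AddCommGroup U'] [Module K U'] [FiniteDimensional K U] (p : U →ₗ[K] U')
    (B H H' : Submodule K U) (hB : B ≤ H) (hH : H' ≤ H) :
    finrank K (H'.map p) + finrank K B ≤ finrank K ((B ⊓ H').map p) + finrank K H := by
  have key : ∀ S : Submodule K U,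
      finrank K (S.map p) + finrank K (S ⊓ LinearMap.ker p : Submodule K U) = finrank K S := by
    intro S
    have h1 := LinearMap.finrank_range_add_finrank_ker (p.domRestrict S)
    rw [LinearMap.range_domRestrict] at h1
    rw [← h1]
    congr 1
    rw [LinearMap.ker_domRestrict]
    have : (Submodule.comap S.subtype (LinearMap.ker p)) =
        Submodule.comap S.subtype (S ⊓ LinearMap.ker p) := by
      ext x; simp
    rw [this]
    exact (LinearEquiv.finrank_eq (Submodule.comapSubtypeEquivOfLe inf_le_left)).symm
  have h1 := key H'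
  have h2 := key (B ⊓ H')
  have h3 := Submodule.finrank_sup_add_finrank_inf_eq B H'
  have h4 : finrank K (B ⊔ H' : Submodule K U) ≤ finrank K H :=
    Submodule.finrank_mono (sup_le hB hH)
  have h5 : finrank K ((B ⊓ H') ⊓ LinearMap.ker p : Submodule K U) ≤
      finrank K (H' ⊓ LinearMap.ker p : Submodule K U) :=
    Submodule.finrank_mono (inf_le_inf_right _ inf_le_right)
  omega

/-- The sum functional. -/
def sumL (ι : Type) [Fintype ι] : (ι → F2) →ₗ[F2] F2 where
  toFun f := ∑ i, f i
  map_add' f g := by simp [Finset.sum_add_distrib]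
  map_smul' c f := by simp [Finset.mul_sum]

theorem sumL_apply {ι : Type} [Fintype ι] (f : ι → F2) : sumL ι f = ∑ i, f i := rfl

theorem finrank_ker_sumL_ge (ι : Type) [Fintype ι] :
    Fintype.card ι ≤ finrank F2 (LinearMap.ker (sumL ι)) + 1 := by
  have h1 := LinearMap.finrank_range_add_finrank_ker (sumL ι)
  have h2 : finrank F2 (LinearMap.range (sumL ι)) ≤ 1 := by
    have := Submodule.finrank_le (LinearMap.range (sumL ι))
    simpa using this
  rw [Module.finrank_fintype_fun_eq_card] at h1
  omega

theorem finrank_ker_sumL_le (ι : Type) [Fintype ι] [Nonempty ι] :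
    finrank F2 (LinearMap.ker (sumL ι)) + 1 ≤ Fintype.card ι := by
  classical
  have h1 := LinearMap.finrank_range_add_finrank_ker (sumL ι)
  have h2 : LinearMap.range (sumL ι) = ⊤ := by
    rw [LinearMap.range_eq_top]
    intro c
    obtain ⟨i⟩ := ‹Nonempty ι›
    exact ⟨Pi.single i c, by simp [sumL_apply]⟩
  rw [h2, Module.finrank_fintype_fun_eq_card] at h1
  simp at h1
  omega

/-- The map sending a function on regions to the sum of its values on the two sides. -/
def sidesL {R P : Type} (l r : P → R) : (R → F2) →ₗ[F2] (P → F2) where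
  toFun c := fun q => c (l q) + c (r q)
  map_add' f g := by funext q; simp; ring
  map_smul' c f := by funext q; simp; ring

theorem sidesL_apply {R P : Type} (l r : P → R) (c : R → F2) (q : P) :
    sidesL l r c q = c (l q) + c (r q) := rfl

theorem rank_sides {R P : Type} [Fintype R] [Fintype P] [DecidableEq R] (l r : P → R)
    (h : ∀ ρ : R, sidesL l r (Pi.single ρ 1) = 0 ∨
      4 ≤ (Finset.univ.filter (fun q => sidesL l r (Pi.single ρ 1) q ≠ 0)).card) :
    finrank F2 (LinearMap.range (sidesL l r)) = 0 ∨
      2 * (finrank F2 (LinearMap.range (sidesL l r)) + 1) ≤ Fintype.card P := by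
  classical
  set R' : Finset R := Finset.univ.filter (fun ρ => sidesL l r (Pi.single ρ 1) ≠ 0) with hR'
  have hdec : ∀ c : R → F2, sidesL l r c = ∑ ρ, c ρ • sidesL l r (Pi.single ρ 1) := by
    intro c
    conv_lhs => rw [pi_eq_sum_univ' c]
    rw [map_sum]
    refine Finset.sum_congr rfl fun ρ _ => ?_
    rw [map_smul]
  rcases R'.eq_empty_or_nonempty with he | ⟨ρ0, hρ0⟩
  · left
    have : LinearMap.range (sidesL l r) = ⊥ := by
      rw [eq_bot_iff]
      rintro _ ⟨c, rfl⟩
      rw [hdec c, Submodule.mem_bot]
      refine Finset.sum_eq_zero fun ρ _ => ?_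
      have : ρ ∉ R' := by simp [he]
      simp only [hR', Finset.mem_filter, Finset.mem_univ, true_and, not_not] at this
      simp [this]
    rw [this]; simp
  · right
    have hcount : 4 * R'.card ≤ 2 * Fintype.card P := by
      have h1 : ∑ _ρ ∈ R', 4 ≤
          ∑ ρ ∈ R', (Finset.univ.filter (fun q => sidesL l r (Pi.single ρ 1) q ≠ 0)).card := by
        refine Finset.sum_le_sum fun ρ hρ => ?_
        rcases h ρ with h0 | h0
        · simp [hR', h0] at hρ
        · exact h0
      have h2 : ∑ ρ ∈ R', (Finset.univ.filter (fun q => sidesL l r (Pi.single ρ 1) q ≠ 0)).card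
          = ∑ q : P, (R'.filter (fun ρ => sidesL l r (Pi.single ρ 1) q ≠ 0)).card := by
        simp only [Finset.card_filter]
        rw [Finset.sum_comm]
      have h3 : ∀ q : P, (R'.filter (fun ρ => sidesL l r (Pi.single ρ 1) q ≠ 0)).card ≤ 2 := by
        intro q
        refine le_trans (Finset.card_le_card (t := {l q, r q}) ?_) Finset.card_le_two
        intro ρ hρ
        simp only [Finset.mem_filter, sidesL_apply] at hρ
        by_contra hn
        simp only [Finset.mem_insert, Finset.mem_singleton, not_or] at hn
        apply hρ.2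
        rw [Pi.single_eq_of_ne (Ne.symm hn.1), Pi.single_eq_of_ne (Ne.symm hn.2), add_zero]
      have h4 : ∑ q : P, (R'.filter (fun ρ => sidesL l r (Pi.single ρ 1) q ≠ 0)).card
          ≤ ∑ _q : P, 2 := Finset.sum_le_sum fun q _ => h3 q
      simp only [Finset.sum_const, smul_eq_mul, Finset.card_univ] at h1 h4
      omega
    have hspan : LinearMap.range (sidesL l r) ≤
        Submodule.span F2 (((R'.erase ρ0).image
          (fun ρ => sidesL l r (Pi.single ρ 1)) : Finset (P → F2)) : Set (P → F2)) := by
      rintro _ ⟨c, rfl⟩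
      have hc : sidesL l r c = sidesL l r (fun ρ => c ρ + c ρ0) := by
        funext q
        simp only [sidesL_apply]
        have := F2_add_self (c ρ0)
        linear_combination (-1 : F2) * this
      rw [hc, hdec]
      refine Submodule.sum_mem _ fun ρ _ => ?_
      by_cases h0 : ρ = ρ0
      · subst h0
        rw [F2_add_self, zero_smul]; exact Submodule.zero_mem _
      · by_cases h1 : ρ ∈ R'
        · refine Submodule.smul_mem _ _ (Submodule.subset_span ?_)
          simp only [Finset.coe_image, Set.mem_image, Finset.mem_coe, Finset.mem_erase]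
          exact ⟨ρ, ⟨h0, h1⟩, rfl⟩
        · simp only [hR', Finset.mem_filter, Finset.mem_univ, true_and, not_not] at h1
          rw [h1, smul_zero]; exact Submodule.zero_mem _
    have h5 := Submodule.finrank_mono hspan
    have h6 := finrank_span_finset_le_card (R := F2) ((R'.erase ρ0).image
          (fun ρ => sidesL l r (Pi.single ρ 1)))
    have h7 : ((R'.erase ρ0).image (fun ρ => sidesL l r (Pi.single ρ 1))).card ≤ R'.card - 1 := by
      refine le_trans Finset.card_image_le ?_
      rw [Finset.card_erase_of_mem hρ0]
    have h8 : 1 ≤ R'.card := Finset.card_pos.2 ⟨ρ0, hρ0⟩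
    unfold Set.finrank at h6
    omega

/-- In `ZMod 2`, a vanishing sum with one nonzero term has another nonzero term. -/
theorem exists_other {ι : Type} (s : Finset ι) (f : ι → F2) (hs : ∑ i ∈ s, f i = 0) {i : ι}
    (hi : i ∈ s) (hf : f i ≠ 0) : ∃ j ∈ s, j ≠ i ∧ f j ≠ 0 := by
  by_contra hn
  push Not at hn
  rw [Finset.sum_eq_single_of_mem i hi (fun j hj hji => hn j hj hji)] at hs
  exact hf hs

end Pool.Agent.MP_aee211_co.H75
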