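import Pool.Agent.MP_aee211_co.H75.Defs
import Pool.Agent.MP_aee211_co.H75.LinAlg

/-! Building embedding schemes; schemes of complete bipartite graphs from cyclic sequences of
perfect matchings. -/

namespace Pool.Agent.MP_aee211_co.H75

open Sum

section General

variable {V : Type} {G : SimpleGraph V}

/-- Rotation of darts from local permutations of the vertex set. -/
def mkRot (G : SimpleGraph V) (R : V → Equiv.Perm V) (hR : ∀ v w, G.Adj v (R v w) ↔ G.Adj v w) :
    Equiv.Perm G.Dart where
  toFun d := ⟨(d.fst, R d.fst d.snd), (hR _ _).2 d.adj⟩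
  invFun d := ⟨(d.fst, (R d.fst).symm d.snd), (hR _ _).1 (by simp)⟩
  left_inv d := SimpleGraph.Dart.ext _ _ (Prod.ext rfl (by simp))
  right_inv d := SimpleGraph.Dart.ext _ _ (Prod.ext rfl (by simp))

theorem mkRot_pow (R : V → Equiv.Perm V) (hR : ∀ v w, G.Adj v (R v w) ↔ G.Adj v w) (n : ℕ)
    (d : G.Dart) : (((mkRot G R hR) ^ n) d).toProd = (d.fst, ((R d.fst) ^ n) d.snd) := by
  induction n with
  | zero => rfl
  | succ n ih =>
    rw [pow_succ', Equiv.Perm.mul_apply, pow_succ', Equiv.Perm.mul_apply]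
    show ((((mkRot G R hR) ^ n) d).toProd.1, R (((mkRot G R hR) ^ n) d).toProd.1
      (((mkRot G R hR) ^ n) d).toProd.2) = _
    rw [ih]

/-- Scheme from local permutations and a symmetric sign function. -/
def mkScheme [Finite V] (G : SimpleGraph V) (R : V → Equiv.Perm V)
    (hR : ∀ v w, G.Adj v (R v w) ↔ G.Adj v w)
    (hcyc : ∀ v w w', G.Adj v w → G.Adj v w' → (R v).SameCycle w w')
    (sg : V → V → Bool) (hsg : ∀ v w, G.Adj v w → sg w v = sg v w) : Scheme G where
  rot := mkRot G R hR
  rot_fst _ := rfl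
  rot_cyc d e h := by
    classical
    obtain ⟨n, -, hn⟩ := (hcyc d.fst d.snd e.snd d.adj (h ▸ e.adj)).exists_pow_eq'
    refine ⟨n, ?_⟩
    rw [zpow_natCast]
    refine SimpleGraph.Dart.ext _ _ ?_
    rw [mkRot_pow, hn, h]
  sign d := sg d.fst d.snd
  sign_symm d := hsg _ _ d.adj

theorem faces_ge [Finite V] (M : Scheme G) {L : Type} (lab : G.Dart × Bool → L)
    (h : ∀ x y, M.FaceRel x y → lab x = lab y) (I : Finset L) (hI : ∀ l ∈ I, ∃ x, lab x = l) :
    I.card ≤ M.faces := by
  classical
  have : Fintype V := Fintype.ofFinite V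
  have : Fintype (Quot M.FaceRel) := Fintype.ofFinite _
  unfold Scheme.faces
  rw [Nat.card_eq_fintype_card, ← Finset.card_univ]
  refine le_trans (Finset.card_le_card (t := Finset.univ.image (Quot.lift lab h)) ?_)
    Finset.card_image_le
  intro l hl
  obtain ⟨x, rfl⟩ := hI l hl
  exact Finset.mem_image.2 ⟨Quot.mk _ x, Finset.mem_univ _, rfl⟩

theorem mk_faces_ge [Finite V] (R : V → Equiv.Perm V)
    (hR : ∀ v w, G.Adj v (R v w) ↔ G.Adj v w)
    (hcyc : ∀ v w w', G.Adj v w → G.Adj v w' → (R v).SameCycle w w')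
    (sg : V → V → Bool) (hsg : ∀ v w, G.Adj v w → sg w v = sg v w)
    {L : Type} (lab : V → V → Bool → L)
    (h1 : ∀ v w b, G.Adj v w → lab v w b = lab w v (if sg v w then b else !b))
    (h2 : ∀ v w, G.Adj v w → lab v w false = lab v (R v w) true)
    (I : Finset L) (hI : ∀ l ∈ I, ∃ v w b, G.Adj v w ∧ lab v w b = l) :
    I.card ≤ (mkScheme G R hR hcyc sg hsg).faces := by
  refine faces_ge _ (fun x => lab x.1.fst x.1.snd x.2) ?_ I ?_
  · rintro ⟨d, b⟩ y (rfl | ⟨hb, rfl⟩)
    · exact h1 _ _ _ d.adj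
    · simp only at hb
      subst hb
      exact h2 _ _ d.adj
  · intro l hl
    obtain ⟨v, w, b, h, rfl⟩ := hI l hl
    exact ⟨(⟨(v, w), h⟩, b), rfl⟩

theorem no_twoFactor [Fintype V] (col : V → Bool) (hcol : ∀ u v, G.Adj u v → col v = !col u)
    (hne : (Finset.univ.filter (fun v => col v = true)).card ≠
      (Finset.univ.filter (fun v => col v = false)).card) : ¬ HasTwoFactor G := by
  classical
  rintro ⟨H, hH, hdeg⟩
  have key : ∀ (b : Bool) (v : V), col v = b →
      ((Finset.univ.filter (fun w => col w = !b)).filter (fun w => H.Adj v w)).card = 2 := by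
    intro b v hv
    rw [← hdeg v, ← Set.ncard_coe_finset]
    congr 1
    ext w
    simp only [Finset.coe_filter, Finset.mem_filter, Finset.mem_univ, true_and,
      Set.mem_ofPred_eq, SimpleGraph.mem_neighborSet]
    exact ⟨fun h => h.2, fun h => ⟨by rw [hcol v w (hH h), hv], h⟩⟩
  have := Finset.card_mul_eq_card_mul (s := Finset.univ.filter (fun v => col v = true))
    (t := Finset.univ.filter (fun v => col v = false)) (m := 2) (n := 2) H.Adj
    (fun a ha => key true a (Finset.mem_filter.1 ha).2)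
    (fun a ha => by
      rw [← key false a (Finset.mem_filter.1 ha).2]
      congr 1
      ext w
      simp [H.adj_comm])
  omega

theorem KConn.mono {k k' : ℕ} (h : KConn G k) (hk : k' ≤ k) : KConn G k' :=
  ⟨lt_of_le_of_lt hk h.1, fun S hS => h.2 S (lt_of_lt_of_le hS hk)⟩

end General

section Bip

variable {A B : Type}

theorem kconn_bip [Fintype A] [Fintype B] {k : ℕ} (hk : 1 ≤ k) (hA : k ≤ Fintype.card A)
    (hB : k ≤ Fintype.card B) : KConn (completeBipartiteGraph A B) k := by
  classical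
  refine ⟨by rw [Nat.card_eq_fintype_card, Fintype.card_sum]; omega, fun S hS => ?_⟩
  obtain ⟨a0, ha0⟩ : ∃ a : A, inl a ∉ S := by
    by_contra hn
    push Not at hn
    have := Finset.card_le_card_of_injOn (s := Finset.univ) (t := S) inl (fun a _ => hn a)
      inl_injective.injOn
    rw [Finset.card_univ] at this
    omega
  obtain ⟨b0, hb0⟩ : ∃ b : B, inr b ∉ S := by
    by_contra hn
    push Not at hn
    have := Finset.card_le_card_of_injOn (s := Finset.univ) (t := S) inr (fun a _ => hn a)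
      inr_injective.injOn
    rw [Finset.card_univ] at this
    omega
  rw [SimpleGraph.connected_iff_exists_forall_reachable]
  refine ⟨⟨inl a0, by simpa using ha0⟩, ?_⟩
  rintro ⟨a | b, h⟩
  · refine SimpleGraph.Reachable.trans (v := ⟨inr b0, by simpa using hb0⟩)
      (SimpleGraph.Adj.reachable ?_) (SimpleGraph.Adj.reachable ?_) <;> simp
  · exact SimpleGraph.Adj.reachable (by simp)

theorem no_twoFactor_bip [Fintype A] [Fintype B] (h : Fintype.card A ≠ Fintype.card B) :
    ¬ HasTwoFactor (completeBipartiteGraph A B) := by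
  classical
  refine no_twoFactor Sum.isLeft ?_ ?_
  · rintro (a | b) (a' | b') h <;> simp at h ⊢
  · have h1 : (Finset.univ.filter (fun v : A ⊕ B => v.isLeft = true)) =
        Finset.univ.image inl := by
      ext (a | b) <;> simp
    have h2 : (Finset.univ.filter (fun v : A ⊕ B => v.isLeft = false)) =
        Finset.univ.image inr := by
      ext (a | b) <;> simp
    rw [h1, h2, Finset.card_image_of_injective _ inl_injective,
      Finset.card_image_of_injective _ inr_injective]
    exact h

theorem card_edge_bip [Fintype A] [Fintype B] :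
    Nat.card (completeBipartiteGraph A B).edgeSet = Fintype.card A * Fintype.card B := by
  rw [SimpleGraph.edgeSet_completeBipartiteGraph, Nat.card_range_of_injective, Nat.card_prod,
    Nat.card_eq_fintype_card, Nat.card_eq_fintype_card]
  rintro ⟨a, b⟩ ⟨a', b'⟩ h
  simpa using h

/-- The cyclic permutation alternating between two matchings. -/
def altPerm (P Q : A → A) (ε : A → Bool) (hP : ∀ a, P (P a) = a) (hQ : ∀ a, Q (Q a) = a)
    (eP : ∀ a, ε (P a) = !ε a) (eQ : ∀ a, ε (Q a) = !ε a) : Equiv.Perm A where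
  toFun a := if ε a then P a else Q a
  invFun a := if ε a then Q a else P a
  left_inv a := by
    cases h : ε a <;> simp [h, eP, eQ, hP, hQ]
  right_inv a := by
    cases h : ε a <;> simp [h, eP, eQ, hP, hQ]

theorem altPerm_cyc (P Q : A → A) (ε : A → Bool) (hP : ∀ a, P (P a) = a) (hQ : ∀ a, Q (Q a) = a)
    (eP : ∀ a, ε (P a) = !ε a) (eQ : ∀ a, ε (Q a) = !ε a) {a a' : A}
    (h : Relation.ReflTransGen (fun x y => y = P x ∨ y = Q x) a a') :
    (altPerm P Q ε hP hQ eP eQ).SameCycle a a' := by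
  induction h with
  | refl => exact Equiv.Perm.SameCycle.refl _ _
  | @tail b c _ hbc ih =>
    refine ih.trans ?_
    have h1 : ∀ x, (altPerm P Q ε hP hQ eP eQ).SameCycle x (if ε x then P x else Q x) :=
      fun x => ⟨1, rfl⟩
    have h2 : ∀ x, (altPerm P Q ε hP hQ eP eQ).SameCycle x (if ε x then Q x else P x) :=
      fun x => ⟨-1, rfl⟩
    have h3 := h1 b
    have h4 := h2 b
    rcases hbc with rfl | rfl <;> cases h : ε b <;> simp only [h] at h3 h4 <;> assumption

theorem addRight_cyc {n : ℕ} [NeZero n] (j j' : ZMod n) :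
    (Equiv.addRight (1 : ZMod n)).SameCycle j j' := by
  have key : ∀ i : ℕ, ((Equiv.addRight (1 : ZMod n)) ^ i) j = j + i := by
    intro i
    induction i with
    | zero => simp
    | succ i ih => rw [pow_succ', Equiv.Perm.mul_apply, ih]; simp [add_assoc]
  refine ⟨((j' - j).val : ℕ), ?_⟩
  rw [zpow_natCast, key]
  simp

theorem sumCongr_left_cyc (f : Equiv.Perm A) {a a' : A} (h : f.SameCycle a a') :
    Equiv.Perm.SameCycle (Equiv.sumCongr f (1 : Equiv.Perm B)) (inl a) (inl a') := by
  obtain ⟨i, hi⟩ := h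
  refine ⟨i, ?_⟩
  have : (Equiv.sumCongr f (1 : Equiv.Perm B)) = Equiv.Perm.sumCongrHom A B (f, 1) := rfl
  rw [this, ← map_zpow]
  simp [hi]

theorem sumCongr_right_cyc (f : Equiv.Perm B) {a a' : B} (h : f.SameCycle a a') :
    Equiv.Perm.SameCycle (Equiv.sumCongr (1 : Equiv.Perm A) f) (inr a) (inr a') := by
  obtain ⟨i, hi⟩ := h
  refine ⟨i, ?_⟩
  have : (Equiv.sumCongr (1 : Equiv.Perm A) f) = Equiv.Perm.sumCongrHom A B (1, f) := rfl
  rw [this, ← map_zpow]
  simp [hi]

theorem exists_scheme_bip [Fintype A] {n : ℕ} [NeZero n] (P Q : ZMod n → A → A)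
    (ε : ZMod n → A → Bool) (hP : ∀ j a, P j (P j a) = a) (hQ : ∀ j a, Q j (Q j a) = a)
    (eP : ∀ j a, ε j (P j a) = !ε j a) (eQ : ∀ j a, ε j (Q j a) = !ε j a)
    (htr : ∀ j a a', Relation.ReflTransGen (fun x y => y = P j x ∨ y = Q j x) a a')
    {L : Type} (lab : ZMod n → A → L) (lP : ∀ j a, lab j (P j a) = lab j a)
    (lQ : ∀ j a, lab (j + 1) (Q j a) = lab (j + 1) a)
    (I : Finset (ZMod n × L)) (hI : ∀ l ∈ I, ∃ a, lab l.1 a = l.2) :
    ∃ M : Scheme (completeBipartiteGraph A (ZMod n)),
      (Fintype.card A : ℤ) + n - Fintype.card A * n + I.card ≤ M.euler ∧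
      ((∀ j j' a, ε j a = ε j' a) → M.Orientable) ∧
      (M.Orientable → ∃ χ : A → Bool, ∀ j a, χ (P j a) = !χ a) := by
  let R : A ⊕ ZMod n → Equiv.Perm (A ⊕ ZMod n) := fun v => match v with
    | inl _ => Equiv.sumCongr 1 (Equiv.addRight 1)
    | inr j => Equiv.sumCongr (altPerm (P j) (Q j) (ε j) (hP j) (hQ j) (eP j) (eQ j)) 1
  have hR : ∀ v w, (completeBipartiteGraph A (ZMod n)).Adj v (R v w) ↔
      (completeBipartiteGraph A (ZMod n)).Adj v w := by
    rintro (a | j) (a' | j') <;> simp [R]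
  have hcyc : ∀ v w w', (completeBipartiteGraph A (ZMod n)).Adj v w →
      (completeBipartiteGraph A (ZMod n)).Adj v w' → (R v).SameCycle w w' := by
    rintro (a | j) (a' | j') (a'' | j'') h h' <;> simp at h h'
    · exact sumCongr_right_cyc _ (addRight_cyc _ _)
    · exact sumCongr_left_cyc _ (altPerm_cyc _ _ _ _ _ _ _ (htr j _ _))
  let sg : A ⊕ ZMod n → A ⊕ ZMod n → Bool := fun v w => match v, w with
    | inl a, inr j => !ε j a
    | inr j, inl a => !ε j a
    | inl _, inl _ => false
    | inr _, inr _ => false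
  have hsg : ∀ v w, (completeBipartiteGraph A (ZMod n)).Adj v w → sg w v = sg v w := by
    rintro (a | j) (a' | j') _ <;> rfl
  let lb : A ⊕ ZMod n → A ⊕ ZMod n → Bool → Option (ZMod n × L) := fun v w b => match v, w with
    | inl a, inr j => if b then some (j, lab j a) else some (j + 1, lab (j + 1) a)
    | inr j, inl a => if xor b (ε j a) then some (j, lab j a) else some (j + 1, lab (j + 1) a)
    | inl _, inl _ => none
    | inr _, inr _ => none
  refine ⟨mkScheme _ R hR hcyc sg hsg, ?_, ?_, ?_⟩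
  · have := mk_faces_ge R hR hcyc sg hsg lb ?_ ?_ (I.map Function.Embedding.some) ?_
    · unfold Scheme.euler
      rw [card_edge_bip, Nat.card_eq_fintype_card, Fintype.card_sum, ZMod.card]
      rw [Finset.card_map] at this
      push_cast
      omega
    · rintro (a | j) (a' | j') b h <;> simp at h
      · cases b <;> cases h : ε j' a <;> simp [lb, sg, h]
      · cases b <;> cases h : ε j a' <;> simp [lb, sg, h]
    · rintro (a | j) (a' | j') h <;> simp at h
      · simp [lb, R]
      · cases h : ε j a' <;> simp [lb, R, altPerm, h, eP, eQ, lP, lQ]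
    · intro l hl
      obtain ⟨⟨j, l⟩, hl', rfl⟩ := Finset.mem_map.1 hl
      obtain ⟨a, ha⟩ := hI _ hl'
      exact ⟨inl a, inr j, true, by simp, by simpa [lb] using ha⟩
  · intro h
    refine ⟨fun v => match v with | inl a => ε 0 a | inr _ => true, ?_⟩
    rintro ⟨⟨a | j, a' | j'⟩, hd⟩ <;> simp at hd
    · show (!ε j' a) = xor (ε 0 a) true
      rw [h j' 0]; simp
    · show (!ε j a') = xor true (ε 0 a')
      rw [h j 0]; simp
  · rintro ⟨s, hs⟩
    refine ⟨fun a => s (inl a), fun j a => ?_⟩
    have h1 : (!ε j a) = xor (s (inl a)) (s (inr j)) := hs ⟨(inl a, inr j), by simp⟩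
    have h2 : (!ε j (P j a)) = xor (s (inl (P j a))) (s (inr j)) :=
      hs ⟨(inl (P j a), inr j), by simp⟩
    rw [eP] at h2
    show s (inl (P j a)) = !s (inl a)
    revert h1 h2
    cases ε j a <;> cases s (inl a) <;> cases s (inr j) <;> cases s (inl (P j a)) <;> simp

end Bip

end Pool.Agent.MP_aee211_co.H75
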