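import Pool.Agent.MP_aee211_co.H75.Defs
import Pool.Agent.MP_aee211_co.H75.LinAlg

/-! Chain complex over `ZMod 2` of an embedding scheme. -/

namespace Pool.Agent.MP_aee211_co.H75

open Module
open scoped Classical

variable {V : Type} {G : SimpleGraph V}

/-- The edge of a dart. -/
def eOf (d : G.Dart) : G.edgeSet := ⟨d.edge, d.edge_mem⟩

theorem exists_dart (e : G.edgeSet) : ∃ d : G.Dart, eOf d = e := by
  obtain ⟨e, he⟩ := e
  induction e using Sym2.ind with
  | _ u v => exact ⟨⟨(u, v), he⟩, rfl⟩

/-- A chosen dart of an edge. -/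
noncomputable def dartOf (e : G.edgeSet) : G.Dart := Classical.choose (exists_dart e)

theorem eOf_dartOf (e : G.edgeSet) : eOf (dartOf e) = e := Classical.choose_spec (exists_dart e)

theorem eOf_eq_iff {d d' : G.Dart} : eOf d = eOf d' ↔ d = d' ∨ d = d'.symm := by
  rw [← SimpleGraph.dart_edge_eq_iff]
  exact Subtype.ext_iff

theorem eOf_symm (d : G.Dart) : eOf d.symm = eOf d := eOf_eq_iff.2 (Or.inr rfl)

theorem dartOf_eOf (d : G.Dart) : dartOf (eOf d) = d ∨ dartOf (eOf d) = d.symm :=
  eOf_eq_iff.1 (eOf_dartOf _)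

theorem symm_fst (d : G.Dart) : d.symm.fst = d.snd := rfl
theorem symm_snd (d : G.Dart) : d.symm.snd = d.fst := rfl

variable [Fintype V]

theorem sum_dart (g : G.Dart → F2) :
    ∑ d, g d = ∑ e : G.edgeSet, (g (dartOf e) + g (dartOf e).symm) := by
  rw [← Finset.sum_fiberwise Finset.univ eOf g]
  refine Finset.sum_congr rfl fun e _ => ?_
  have : Finset.univ.filter (fun d : G.Dart => eOf d = e) = {dartOf e, (dartOf e).symm} := by
    ext d
    simp only [Finset.mem_filter, Finset.mem_univ, true_and, Finset.mem_insert,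
      Finset.mem_singleton]
    rw [← eOf_eq_iff, eOf_dartOf]
  rw [this, Finset.sum_pair (dartOf e).symm_ne.symm]

/-- The boundary map from edges to vertices. -/
noncomputable def bd1 (G : SimpleGraph V) : (G.edgeSet → F2) →ₗ[F2] (V → F2) where
  toFun z := fun v => ∑ d : G.Dart, if d.fst = v then z (eOf d) else 0
  map_add' z w := by
    funext v
    simp only [Pi.add_apply, ← Finset.sum_add_distrib]
    refine Finset.sum_congr rfl fun d _ => ?_
    split_ifs <;> simp
  map_smul' c z := by
    funext v
    simp only [Pi.smul_apply, smul_eq_mul, RingHom.id_apply, Finset.mul_sum]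
    refine Finset.sum_congr rfl fun d _ => ?_
    split_ifs <;> simp

theorem bd1_apply (z : G.edgeSet → F2) (v : V) :
    bd1 G z v = ∑ d : G.Dart, if d.fst = v then z (eOf d) else 0 := rfl

theorem pair_bd1 (f : V → F2) (z : G.edgeSet → F2) :
    ∑ v, f v * bd1 G z v = ∑ e, z e * (f (dartOf e).fst + f (dartOf e).snd) := by
  have h1 : ∑ v, f v * bd1 G z v = ∑ d : G.Dart, f d.fst * z (eOf d) := by
    simp only [bd1_apply, Finset.mul_sum]
    rw [Finset.sum_comm]
    refine Finset.sum_congr rfl fun d _ => ?_
    rw [Finset.sum_eq_single d.fst]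
    · simp
    · intro v _ hv
      simp [Ne.symm hv]
    · simp
  rw [h1, sum_dart]
  refine Finset.sum_congr rfl fun e _ => ?_
  rw [eOf_symm, eOf_dartOf, symm_fst]
  ring

theorem bd1_single (d : G.Dart) :
    bd1 G (Pi.single (eOf d) 1) = Pi.single d.fst 1 + Pi.single d.snd 1 := by
  funext v
  have h := pair_bd1 (G := G) (Pi.single v 1) (Pi.single (eOf d) 1)
  rw [Finset.sum_eq_single v, Finset.sum_eq_single (eOf d)] at h
  · simp only [Pi.single_eq_same, one_mul] at h
    rw [h]
    simp only [Pi.add_apply, Pi.single_apply]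
    rcases dartOf_eOf d with h' | h'
    · rw [h']; simp only [eq_comm]
    · rw [h', symm_fst, symm_snd, add_comm]; simp only [eq_comm]
  · intro e _ he
    simp [Pi.single_eq_of_ne he]
  · simp
  · intro w _ hw
    simp [Pi.single_eq_of_ne hw]
  · simp

/-- Chains supported on a set of edges. -/
def supp (I : Set G.edgeSet) : Submodule F2 (G.edgeSet → F2) where
  carrier := {z | ∀ e, e ∉ I → z e = 0}
  add_mem' := by
    intro a b ha hb e he
    simp [ha e he, hb e he]
  zero_mem' := by intro e _; rfl
  smul_mem' := by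
    intro c a ha e he
    simp [ha e he]

omit [Fintype V] in
theorem mem_supp {I : Set G.edgeSet} {z : G.edgeSet → F2} :
    z ∈ supp I ↔ ∀ e, e ∉ I → z e = 0 := Iff.rfl

theorem path_mem (I : Set G.edgeSet) {u v : V}
    (h : Relation.ReflTransGen (fun a b => ∃ d : G.Dart, d.fst = a ∧ d.snd = b ∧ eOf d ∈ I) u v) :
    (Pi.single u 1 + Pi.single v 1 : V → F2) ∈ (supp I).map (bd1 G) := by
  induction h with
  | refl => rw [fun_add_self]; exact Submodule.zero_mem _
  | @tail b c _ hbc ih =>
    obtain ⟨d, rfl, rfl, hd⟩ := hbc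
    have h2 : (Pi.single d.fst 1 + Pi.single d.snd 1 : V → F2) ∈ (supp I).map (bd1 G) := by
      refine ⟨Pi.single (eOf d) 1, ?_, bd1_single d⟩
      intro e he
      exact Pi.single_eq_of_ne (by rintro rfl; exact he hd) _
    have h3 := Submodule.add_mem _ ih h2
    have h4 : (Pi.single u 1 + Pi.single d.fst 1 + (Pi.single d.fst 1 + Pi.single d.snd 1) :
        V → F2) = Pi.single u 1 + Pi.single d.snd 1 := by
      have := fun_add_self (Pi.single d.fst 1 : V → F2)
      linear_combination this
    rwa [h4] at h3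

theorem rank_bd1 (hG : G.Connected) :
    Fintype.card V ≤ finrank F2 (LinearMap.range (bd1 G)) + 1 := by
  have h1 := finrank_ker_sumL_ge V
  have h2 : LinearMap.ker (sumL V) ≤ LinearMap.range (bd1 G) := by
    intro g hg
    obtain ⟨v0⟩ := hG.nonempty
    rw [LinearMap.mem_ker, sumL_apply] at hg
    have h3 : g = ∑ v, g v • (Pi.single v 1 + Pi.single v0 1 : V → F2) := by
      simp only [smul_add, Finset.sum_add_distrib]
      rw [← Finset.sum_smul, hg, zero_smul, add_zero]
      exact pi_eq_sum_univ' g
    rw [h3]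
    refine Submodule.sum_mem _ fun v _ => Submodule.smul_mem _ _ ?_
    refine LinearMap.map_le_range (path_mem Set.univ ?_)
    have := (SimpleGraph.reachable_iff_reflTransGen v v0).1 (hG v v0)
    exact rtg_mono (fun a b hab => ⟨⟨(a, b), hab⟩, rfl, rfl, trivial⟩) this
  have := Submodule.finrank_mono h2
  omega

/-- The boundary map from classes of flags to edges. -/
noncomputable def bd2 {R : Type} (q : G.Dart × Bool → R) : (R → F2) →ₗ[F2] (G.edgeSet → F2) :=
  sidesL (fun e => q (dartOf e, false)) (fun e => q (dartOf e, true))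

omit [Fintype V] in
theorem bd2_eOf (M : Scheme G) {R : Type} (q : G.Dart × Bool → R)
    (hq : ∀ x y, M.FaceRel x y → q x = q y) (c : R → F2) (d : G.Dart) :
    bd2 q c (eOf d) = c (q (d, false)) + c (q (d, true)) := by
  unfold bd2
  rw [sidesL_apply]
  rcases dartOf_eOf d with h | h
  · rw [h]
  · rw [h]
    have h1 := hq (d, false) _ (Or.inl rfl)
    have h2 := hq (d, true) _ (Or.inl rfl)
    rw [h1, h2]
    cases M.sign d <;> simp [add_comm]

theorem bd1_bd2 (M : Scheme G) {R : Type} (q : G.Dart × Bool → R)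
    (hq : ∀ x y, M.FaceRel x y → q x = q y) (c : R → F2) : bd1 G (bd2 q c) = 0 := by
  funext v
  rw [bd1_apply]
  have h1 : ∀ d : G.Dart, (if d.fst = v then bd2 q c (eOf d) else 0) =
      (if (M.rot d).fst = v then c (q (M.rot d, true)) else 0) +
        (if d.fst = v then c (q (d, true)) else 0) := by
    intro d
    rw [bd2_eOf M q hq, M.rot_fst, hq (d, false) (M.rot d, true) (Or.inr ⟨rfl, rfl⟩)]
    split_ifs <;> simp
  simp only [h1, Finset.sum_add_distrib]
  rw [Equiv.sum_comp M.rot (fun d => if d.fst = v then c (q (d, true)) else 0)]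
  exact F2_add_self _

theorem ker_bd2 (hG : G.Connected) (M : Scheme G) :
    finrank F2 (LinearMap.ker (bd2 (Quot.mk M.FaceRel))) ≤ 1 := by
  have hq : ∀ x y, M.FaceRel x y → Quot.mk M.FaceRel x = Quot.mk M.FaceRel y :=
    fun x y h => Quot.sound h
  have hle : LinearMap.ker (bd2 (Quot.mk M.FaceRel)) ≤
      Submodule.span F2 {(fun _ => 1 : Quot M.FaceRel → F2)} := by
    intro c hc
    rw [LinearMap.mem_ker] at hc
    set g : G.Dart → F2 := fun d => c (Quot.mk _ (d, true)) with hg
    have h1 : ∀ d, c (Quot.mk _ (d, false)) = g d := by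
      intro d
      apply F2_eq_of_add
      rw [← bd2_eOf M _ hq, hc]; rfl
    have h1' : ∀ d b, c (Quot.mk _ (d, b)) = g d := by
      intro d b; cases b
      · exact h1 d
      · rfl
    have h2 : ∀ d, g (M.rot d) = g d := by
      intro d
      rw [← h1 d, hq (d, false) (M.rot d, true) (Or.inr ⟨rfl, rfl⟩)]
    have h3 : ∀ d, g d.symm = g d := by
      intro d
      rw [← h1 d, hq (d, false) _ (Or.inl rfl), h1']
    have h4 : ∀ d e : G.Dart, d.fst = e.fst → g d = g e := by
      intro d e hde
      obtain ⟨n, _, rfl⟩ := (M.rot_cyc d e hde).exists_pow_eq'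
      clear hde
      induction n with
      | zero => rfl
      | succ n ih =>
        rw [pow_succ', Equiv.Perm.mul_apply, h2]
        exact ih (by omega)
    have h5 : ∀ u v : V, Relation.ReflTransGen G.Adj u v →
        ∀ d e : G.Dart, d.fst = u → e.fst = v → g d = g e := by
      intro u v h
      induction h with
      | refl => intro d e hd he; exact h4 d e (hd.trans he.symm)
      | @tail b c _ hbc ih =>
        intro d e hd he
        rw [ih d ⟨(b, c), hbc⟩ hd rfl, ← h3]
        exact h4 _ _ he.symm
    rw [Submodule.mem_span_singleton]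
    by_cases hne : Nonempty G.Dart
    · obtain ⟨d0⟩ := hne
      refine ⟨g d0, ?_⟩
      funext x
      induction x using Quot.ind with
      | _ x =>
        obtain ⟨d, b⟩ := x
        rw [h1' d b]
        simp only [Pi.smul_apply, smul_eq_mul, mul_one]
        exact h5 _ _ ((SimpleGraph.reachable_iff_reflTransGen _ _).1 (hG _ _)) _ _ rfl rfl
    · refine ⟨0, ?_⟩
      funext x
      induction x using Quot.ind with
      | _ x => exact absurd ⟨x.1⟩ hne
  refine le_trans (Submodule.finrank_mono hle) ?_
  have := finrank_span_le_card (R := F2) ({(fun _ => 1 : Quot M.FaceRel → F2)} :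
    Set (Quot M.FaceRel → F2))
  simpa using this

/-- The cycle space exceeds the boundary space by at most the Euler genus. -/
theorem codim_le (hG : G.Connected) (M : Scheme G) :
    (finrank F2 (LinearMap.ker (bd1 G)) : ℤ) ≤
      finrank F2 (LinearMap.range (bd2 (Quot.mk M.FaceRel))) + (2 - M.euler) := by
  have h1 := rank_bd1 hG
  have h2 := ker_bd2 hG M
  have h3 := LinearMap.finrank_range_add_finrank_ker (bd1 G)
  have h4 := LinearMap.finrank_range_add_finrank_ker (bd2 (G := G) (Quot.mk M.FaceRel))
  rw [Module.finrank_fintype_fun_eq_card] at h3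
  have : Fintype (Quot M.FaceRel) := Fintype.ofFinite _
  rw [Module.finrank_fintype_fun_eq_card] at h4
  unfold Scheme.euler Scheme.faces
  rw [Nat.card_eq_fintype_card, Nat.card_eq_fintype_card, Nat.card_eq_fintype_card]
  omega

end Pool.Agent.MP_aee211_co.H75
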