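import Pool.Agent.MP_aee211_co.H75.Chains

/-! Euler bound for a simple bipartite minor of a graph with an embedding scheme. -/

namespace Pool.Agent.MP_aee211_co.H75

open Module
open scoped Classical

/-- Boundary map of the bipartite graph with edge set `P` on the vertex set `X ∪ Y`. -/
noncomputable def bdK {W : Type} (Z : Finset W) (P : Finset (W × W)) :
    (P → F2) →ₗ[F2] (Z → F2) where
  toFun a := fun w => ∑ q : P, a q *
    ((if q.1.1 = w.1 then 1 else 0) + (if q.1.2 = w.1 then 1 else 0))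
  map_add' a b := by
    funext w
    simp only [Pi.add_apply, add_mul, Finset.sum_add_distrib]
  map_smul' c a := by
    funext w
    simp only [Pi.smul_apply, smul_eq_mul, RingHom.id_apply, Finset.mul_sum, mul_assoc]

theorem bdK_apply {W : Type} (Z : Finset W) (P : Finset (W × W)) (a : P → F2) (w : Z) :
    bdK Z P a w = ∑ q : P, a q *
      ((if q.1.1 = w.1 then 1 else 0) + (if q.1.2 = w.1 then 1 else 0)) := rfl

theorem sum_ind {W : Type} (Z : Finset W) {x : W} (hx : x ∈ Z) (f : W → F2) :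
    ∑ w : Z, (if x = w.1 then 1 else 0) * f w.1 = f x := by
  rw [Finset.sum_eq_single ⟨x, hx⟩]
  · simp
  · intro w _ hw
    have : x ≠ w.1 := fun h => hw (Subtype.ext h.symm)
    simp [this]
  · simp

theorem pair_bdK {W : Type} (Z : Finset W) (P : Finset (W × W))
    (hP : ∀ q ∈ P, q.1 ∈ Z ∧ q.2 ∈ Z) (a : P → F2) (f : W → F2) :
    ∑ w : Z, bdK Z P a w * f w.1 = ∑ q : P, a q * (f q.1.1 + f q.1.2) := by
  simp only [bdK_apply, Finset.sum_mul]
  rw [Finset.sum_comm]
  refine Finset.sum_congr rfl fun q _ => ?_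
  simp only [mul_assoc, add_mul, ← Finset.mul_sum, Finset.sum_add_distrib]
  rw [sum_ind Z (hP q.1 q.2).1, sum_ind Z (hP q.1 q.2).2]

theorem ker_bdK {W : Type} (Z : Finset W) (hZ : Z.Nonempty) (P : Finset (W × W))
    (hP : ∀ q ∈ P, q.1 ∈ Z ∧ q.2 ∈ Z) :
    P.card + 1 ≤ finrank F2 (LinearMap.ker (bdK Z P)) + Z.card := by
  have : Nonempty Z := hZ.to_subtype
  have h1 := LinearMap.finrank_range_add_finrank_ker (bdK Z P)
  rw [Module.finrank_fintype_fun_eq_card, Fintype.card_coe] at h1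
  have h2 : LinearMap.range (bdK Z P) ≤ LinearMap.ker (sumL Z) := by
    rintro _ ⟨a, rfl⟩
    rw [LinearMap.mem_ker, sumL_apply]
    have := pair_bdK Z P hP a (fun _ => 1)
    simp only [mul_one, F2_add_self, mul_zero, Finset.sum_const_zero] at this
    exact this
  have h3 := Submodule.finrank_mono h2
  have h4 := finrank_ker_sumL_le Z
  rw [Fintype.card_coe] at h4
  omega

theorem four_le_supp {W : Type} (X Y : Finset W) (hXY : Disjoint X Y) (P : Finset (W × W))
    (hP : ∀ q ∈ P, q.1 ∈ X ∧ q.2 ∈ Y) (a : P → F2) (ha : bdK (X ∪ Y) P a = 0) :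
    a = 0 ∨ 4 ≤ (Finset.univ.filter (fun q => a q ≠ 0)).card := by
  by_cases h0 : a = 0
  · exact Or.inl h0
  right
  have hne : ∀ q q' : P, q.1.1 ≠ q'.1.2 := by
    intro q q' h
    exact Finset.disjoint_left.1 hXY (hP q.1 q.2).1 (h ▸ (hP q'.1 q'.2).2)
  have hA : ∀ q : P, a q ≠ 0 → ∃ q' : P, a q' ≠ 0 ∧ q'.1.1 = q.1.1 ∧ q'.1.2 ≠ q.1.2 := by
    intro q hq
    have h1 := congrFun ha ⟨q.1.1, Finset.mem_union_left _ (hP q.1 q.2).1⟩
    rw [bdK_apply] at h1
    obtain ⟨q', _, h2, h3⟩ := exists_other _ _ h1 (Finset.mem_univ q)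
      (by simp [(hne q q).symm, hq])
    have h4 : q'.1.1 = q.1.1 := by
      by_contra h5
      simp [h5, (hne q q').symm] at h3
    refine ⟨q', left_ne_zero_of_mul h3, h4, fun h5 => h2 (Subtype.ext (Prod.ext h4 h5))⟩
  have hB : ∀ q : P, a q ≠ 0 → ∃ q' : P, a q' ≠ 0 ∧ q'.1.2 = q.1.2 ∧ q'.1.1 ≠ q.1.1 := by
    intro q hq
    have h1 := congrFun ha ⟨q.1.2, Finset.mem_union_right _ (hP q.1 q.2).2⟩
    rw [bdK_apply] at h1
    obtain ⟨q', _, h2, h3⟩ := exists_other _ _ h1 (Finset.mem_univ q)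
      (by simp [hne q q, hq])
    have h4 : q'.1.2 = q.1.2 := by
      by_contra h5
      simp [h5, hne q' q] at h3
    refine ⟨q', left_ne_zero_of_mul h3, h4, fun h5 => h2 (Subtype.ext (Prod.ext h5 h4))⟩
  obtain ⟨q0, hq0⟩ : ∃ q, a q ≠ 0 := by
    by_contra hn
    push Not at hn
    exact h0 (funext hn)
  obtain ⟨q1, hq1, h11, h12⟩ := hA q0 hq0
  obtain ⟨q2, hq2, h22, h21⟩ := hB q0 hq0
  obtain ⟨q3, hq3, h32, h31⟩ := hB q1 hq1
  have hsub : ({q0, q1, q2, q3} : Finset P) ⊆ Finset.univ.filter (fun q => a q ≠ 0) := by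
    intro q hq
    simp only [Finset.mem_insert, Finset.mem_singleton] at hq
    simp only [Finset.mem_filter, Finset.mem_univ, true_and]
    rcases hq with rfl | rfl | rfl | rfl <;> assumption
  refine le_trans (le_of_eq ?_) (Finset.card_le_card hsub)
  symm
  rw [Finset.card_eq_four]
  refine ⟨q0, q1, q2, q3, ?_, ?_, ?_, ?_, ?_, ?_, rfl⟩
  · rintro rfl; exact h12 rfl
  · rintro rfl; exact h21 rfl
  · rintro rfl; exact h12 h32.symm
  · rintro rfl; exact h12 h22
  · rintro rfl; exact h31 rfl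
  · rintro rfl; exact h12 (h32.symm.trans h22)

theorem minor_euler {V : Type} [Fintype V] {G : SimpleGraph V} (hG : G.Connected) (M : Scheme G)
    (γ : ℤ) (hγ : 2 - γ ≤ M.euler) {W : Type} (π : V → W) (X Y : Finset W) (hXY : Disjoint X Y)
    (h3 : 3 ≤ X.card + Y.card)
    (hfib : ∀ u v, π u = π v → π u ∈ X ∪ Y →
      Relation.ReflTransGen (fun a b => G.Adj a b ∧ π a = π b) u v)
    (P : Finset (W × W))
    (hP : ∀ q ∈ P, q.1 ∈ X ∧ q.2 ∈ Y ∧ ∃ u v, G.Adj u v ∧ π u = q.1 ∧ π v = q.2) :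
    (P.card : ℤ) ≤ 2 * (X.card + Y.card) + 2 * γ - 4 := by
  have hP1 : ∀ q ∈ P, q.1 ∈ X ∧ q.2 ∈ Y := fun q hq => ⟨(hP q hq).1, (hP q hq).2.1⟩
  have hP2 : ∀ q ∈ P, q.1 ∈ X ∪ Y ∧ q.2 ∈ X ∪ Y := fun q hq =>
    ⟨Finset.mem_union_left _ (hP q hq).1, Finset.mem_union_right _ (hP q hq).2.1⟩
  have hne : ∀ q q' : P, q.1.1 ≠ q'.1.2 := by
    intro q q' h
    exact Finset.disjoint_left.1 hXY (hP q.1 q.2).1 (h ▸ (hP q'.1 q'.2).2.1)
  have hk : ∀ q : P, ∃ d : G.Dart, π d.fst = q.1.1 ∧ π d.snd = q.1.2 := by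
    intro q
    obtain ⟨u, v, huv, h1, h2⟩ := (hP q.1 q.2).2.2
    exact ⟨⟨(u, v), huv⟩, h1, h2⟩
  choose k hk1 hk2 using hk
  set ke : P → G.edgeSet := fun q => eOf (k q) with hke
  have hinj : Function.Injective ke := by
    intro q q' h
    rcases eOf_eq_iff.1 h with h | h
    · exact Subtype.ext (Prod.ext (by rw [← hk1, ← hk1, h]) (by rw [← hk2, ← hk2, h]))
    · exfalso
      apply hne q q'
      rw [← hk1, ← hk2, h, symm_fst]
  set I : Set G.edgeSet := {e | π (dartOf e).fst = π (dartOf e).snd} with hI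
  have hIe : ∀ d : G.Dart, eOf d ∈ I ↔ π d.fst = π d.snd := by
    intro d
    simp only [hI, Set.mem_ofPred_eq]
    rcases dartOf_eOf d with h | h
    · rw [h]
    · rw [h, symm_fst, symm_snd, eq_comm]
  have hkI : ∀ q, ke q ∉ I := by
    intro q h
    rw [hke, hIe, hk1, hk2] at h
    exact hne q q h
  set U : Set G.edgeSet := I ∪ Set.range ke with hU
  set p : (G.edgeSet → F2) →ₗ[F2] (P → F2) := LinearMap.funLeft F2 F2 ke with hp
  have hpa : ∀ z q, p z q = z (ke q) := fun z q => rfl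
  set H := LinearMap.ker (bd1 G) with hH
  set B := LinearMap.range (bd2 (G := G) (Quot.mk M.FaceRel)) with hB
  have hq : ∀ x y, M.FaceRel x y → Quot.mk M.FaceRel x = Quot.mk M.FaceRel y :=
    fun x y h => Quot.sound h
  have hBH : B ≤ H := by
    rintro _ ⟨c, rfl⟩
    exact bd1_bd2 M _ hq c
  -- projection of a cycle supported on used edges is a cycle of the minor
  have key2 : ∀ z, bd1 G z = 0 → z ∈ supp U → bdK (X ∪ Y) P (p z) = 0 := by
    intro z hz hzU
    funext w
    have h1 := pair_bd1 (G := G) (fun v => if π v = w.1 then 1 else 0) z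
    simp only [hz, Pi.zero_apply, mul_zero, Finset.sum_const_zero] at h1
    rw [bdK_apply, Pi.zero_apply]
    refine Eq.trans ?_ h1.symm
    refine Fintype.sum_of_injective ke hinj _ _ ?_ ?_
    · intro e he
      by_cases heI : e ∈ I
      · have : π (dartOf e).fst = π (dartOf e).snd := heI
        rw [this, F2_add_self, mul_zero]
      · rw [hzU e (by rintro (h | h); exacts [heI h, he h]), zero_mul]
    · intro q
      rw [hpa, ← hk1, ← hk2]
      rcases dartOf_eOf (k q) with h | h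
      · simp only [hke]; rw [h]
      · simp only [hke]; rw [h, symm_fst, symm_snd, add_comm]
  -- cycles of the minor lift
  have key1 : LinearMap.ker (bdK (X ∪ Y) P) ≤ (H ⊓ supp U).map p := by
    intro a ha
    rw [LinearMap.mem_ker] at ha
    obtain ⟨v0⟩ := hG.nonempty
    have hβ : ∀ w : W, ∃ b : V, ∀ u, π u = w → π b = w := by
      intro w
      by_cases h : ∃ u, π u = w
      · obtain ⟨u, hu⟩ := h
        exact ⟨u, fun _ _ => hu⟩
      · exact ⟨v0, fun u hu => absurd ⟨u, hu⟩ h⟩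
    choose β hβ using hβ
    have hpath : ∀ u, π u ∈ X ∪ Y →
        (Pi.single u 1 + Pi.single (β (π u)) 1 : V → F2) ∈ (supp I).map (bd1 G) := by
      intro u hu
      refine path_mem I (rtg_mono ?_ (hfib u (β (π u)) (hβ _ u rfl).symm hu))
      intro a b hab
      exact ⟨⟨(a, b), hab.1⟩, rfl, rfl, (hIe _).2 hab.2⟩
    set z0 : G.edgeSet → F2 := ∑ q : P, a q • Pi.single (ke q) 1 with hz0
    have hzero : ∑ q : P, a q • (Pi.single (β q.1.1) 1 + Pi.single (β q.1.2) 1 : V → F2) = 0 := by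
      funext x
      have h1 := pair_bdK (X ∪ Y) P hP2 a (fun w => (Pi.single (β w) 1 : V → F2) x)
      simp only [ha, Pi.zero_apply, zero_mul, Finset.sum_const_zero] at h1
      rw [Finset.sum_apply, Pi.zero_apply]
      exact Eq.trans rfl h1.symm
    have hmem : bd1 G z0 ∈ (supp I).map (bd1 G) := by
      have h1 : bd1 G z0 = ∑ q : P, a q •
          ((Pi.single (k q).fst 1 + Pi.single (β (π (k q).fst)) 1 : V → F2) +
            (Pi.single (k q).snd 1 + Pi.single (β (π (k q).snd)) 1)) := by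
        rw [hz0, map_sum, ← add_zero (∑ q : P, _), ← hzero, ← Finset.sum_add_distrib]
        refine Finset.sum_congr rfl fun q _ => ?_
        rw [map_smul, hke, bd1_single, ← smul_add, hk1, hk2]
        congr 1
        abel
      rw [h1]
      refine Submodule.sum_mem _ fun q _ => Submodule.smul_mem _ _ (Submodule.add_mem _ ?_ ?_)
      · exact hpath _ (by rw [hk1]; exact (hP2 q.1 q.2).1)
      · exact hpath _ (by rw [hk2]; exact (hP2 q.1 q.2).2)
    obtain ⟨zI, hzI, hzI'⟩ := hmem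
    refine ⟨z0 + zI, ⟨?_, ?_⟩, ?_⟩
    · show bd1 G (z0 + zI) = 0
      rw [map_add, hzI', fun_add_self]
    · refine Submodule.add_mem _ (Submodule.sum_mem _ fun q _ => Submodule.smul_mem _ _ ?_) ?_
      · intro e he
        exact Pi.single_eq_of_ne (by rintro rfl; exact he (Or.inr ⟨q, rfl⟩)) _
      · intro e he
        exact hzI e (fun h => he (Or.inl h))
    · funext q
      rw [hpa, Pi.add_apply, hzI _ (hkI q), add_zero, hz0, Finset.sum_apply,
        Finset.sum_eq_single q]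
      · simp
      · intro q' _ hq'
        rw [Pi.smul_apply, Pi.single_eq_of_ne (fun h => hq' (hinj h).symm), smul_zero]
      · simp
  -- regions
  set RR : G.Dart × Bool → G.Dart × Bool → Prop := fun x y =>
    M.FaceRel x y ∨ (eOf x.1 ∉ U ∧ x.2 = false ∧ y = (x.1, true)) with hRR
  have hqR : ∀ x y, M.FaceRel x y → Quot.mk RR x = Quot.mk RR y :=
    fun x y h => Quot.sound (Or.inl h)
  have : Fintype (Quot RR) := Fintype.ofFinite _
  set sL := sidesL (fun q : P => Quot.mk RR (dartOf (ke q), false))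
    (fun q : P => Quot.mk RR (dartOf (ke q), true)) with hsL
  have hsLp : ∀ c, sL c = p (bd2 (Quot.mk RR) c) := fun c => rfl
  have key3 : (B ⊓ (H ⊓ supp U)).map p ≤ LinearMap.range sL := by
    rintro _ ⟨z, ⟨⟨c, rfl⟩, -, hzU⟩, rfl⟩
    refine ⟨Quot.lift (fun x => c (Quot.mk _ x)) ?_, ?_⟩
    · rintro x y (h | ⟨h1, h2, rfl⟩)
      · rw [hq x y h]
      · obtain ⟨d, b⟩ := x
        simp only at h1 h2
        subst h2
        apply F2_eq_of_add
        rw [← bd2_eOf M _ hq]
        exact hzU _ h1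
    · rw [hsLp]; rfl
  have key4 : ∀ c, bdK (X ∪ Y) P (sL c) = 0 := by
    intro c
    rw [hsLp]
    refine key2 _ (bd1_bd2 M _ hqR c) ?_
    intro e he
    rw [← eOf_dartOf e, bd2_eOf M _ hqR]
    have : Quot.mk RR (dartOf e, false) = Quot.mk RR (dartOf e, true) :=
      Quot.sound (Or.inr ⟨by rwa [eOf_dartOf], rfl, rfl⟩)
    rw [this, F2_add_self]
  have hr := rank_sides (fun q : P => Quot.mk RR (dartOf (ke q), false))
    (fun q : P => Quot.mk RR (dartOf (ke q), true))
    (fun ρ => by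
      have := four_le_supp X Y hXY P hP1 _ (key4 (Pi.single ρ 1))
      convert this)
  rw [← hsL, Fintype.card_coe] at hr
  have hZ : (X ∪ Y).card = X.card + Y.card := by
    convert Finset.card_union_of_disjoint hXY
  have h1 := ker_bdK (X ∪ Y) (Finset.card_pos.1 (by omega)) P hP2
  have h2 := Submodule.finrank_mono key1
  have h4 := Submodule.finrank_mono key3
  have h5 := finrank_map_inf p B H (H ⊓ supp U) hBH inf_le_left
  have h6 := codim_le hG M
  have h7 := Submodule.finrank_mono hBH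
  rw [← hH, ← hB] at h6
  omega

end Pool.Agent.MP_aee211_co.H75
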