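import Pool.Agent.MP_aee211_co.H75.LinAlg

/-! Minimal violators of the condition of Tutte's matching theorem. -/

namespace Pool.Agent.MP_aee211_co.H75

open scoped Classical

variable {A : Type}

/-- Joined by a path avoiding `Z`. -/
def Rch (Γ : SimpleGraph A) (Z : Finset A) : A → A → Prop :=
  Relation.ReflTransGen (fun a b => a ∉ Z ∧ b ∉ Z ∧ Γ.Adj a b)

variable {Γ : SimpleGraph A} {Z : Finset A}

theorem Rch.refl (a : A) : Rch Γ Z a a := Relation.ReflTransGen.refl

theorem Rch.single {a b : A} (ha : a ∉ Z) (hb : b ∉ Z) (h : Γ.Adj a b) : Rch Γ Z a b :=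
  Relation.ReflTransGen.single ⟨ha, hb, h⟩

theorem Rch.trans {a b c : A} (h : Rch Γ Z a b) (h' : Rch Γ Z b c) : Rch Γ Z a c :=
  Relation.ReflTransGen.trans h h'

theorem Rch.symm {a b : A} (h : Rch Γ Z a b) : Rch Γ Z b a := by
  induction h with
  | refl => exact Rch.refl _
  | tail _ hbc ih => exact (Rch.single hbc.2.1 hbc.1 hbc.2.2.symm).trans ih

theorem Rch.notMem {a b : A} (h : Rch Γ Z a b) (ha : a ∉ Z) : b ∉ Z := by
  induction h with
  | refl => exact ha
  | tail _ hbc _ => exact hbc.2.1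

theorem even_card_of_invol (s : Finset A) (φ : A → A) (h1 : ∀ a ∈ s, φ a ∈ s)
    (h2 : ∀ a ∈ s, φ (φ a) = a) (h3 : ∀ a ∈ s, φ a ≠ a) : Even s.card := by
  rw [← ZMod.natCast_eq_zero_iff_even]
  have := Finset.sum_involution (s := s) (f := fun _ => (1 : F2)) (fun a _ => φ a)
    (fun _ _ => F2_add_self _) (fun a ha _ => h3 a ha) h1 h2
  simpa using this

variable [Fintype A]

/-- The component of `a` after deleting `Z`. -/
noncomputable def cls (Γ : SimpleGraph A) (Z : Finset A) (a : A) : Finset A :=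
  Finset.univ.filter (Rch Γ Z a)

theorem mem_cls {a b : A} : b ∈ cls Γ Z a ↔ Rch Γ Z a b := by simp [cls]

theorem self_mem_cls (a : A) : a ∈ cls Γ Z a := mem_cls.2 (Rch.refl a)

theorem cls_eq_iff {a b : A} : cls Γ Z a = cls Γ Z b ↔ Rch Γ Z a b := by
  constructor
  · intro h
    rw [← mem_cls, h]; exact self_mem_cls b
  · intro h
    ext c
    simp only [mem_cls]
    exact ⟨fun h' => h.symm.trans h', fun h' => h.trans h'⟩

theorem cls_eq_of_mem {a b : A} (h : b ∈ cls Γ Z a) : cls Γ Z a = cls Γ Z b :=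
  cls_eq_iff.2 (mem_cls.1 h)

/-- The odd components after deleting `Z`. -/
noncomputable def odds (Γ : SimpleGraph A) (Z : Finset A) : Finset (Finset A) :=
  ((Finset.univ.filter (fun a => a ∉ Z)).image (cls Γ Z)).filter (fun Q => Odd Q.card)

theorem mem_odds {Q : Finset A} :
    Q ∈ odds Γ Z ↔ (∃ a, a ∉ Z ∧ cls Γ Z a = Q) ∧ Odd Q.card := by
  simp [odds]

theorem exists_violator (h : ∀ M : Γ.Subgraph, ¬ M.IsPerfectMatching) :
    ∃ Z : Finset A, Z.card < (odds Γ Z).card := by
  have h1 : ¬ ∀ u, ¬ Γ.IsTutteViolator u := by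
    rw [← SimpleGraph.tutte]
    rintro ⟨M, hM⟩
    exact h M hM
  push Not at h1
  obtain ⟨u, hu⟩ := h1
  refine ⟨u.toFinset, ?_⟩
  unfold SimpleGraph.IsTutteViolator at hu
  rw [Set.ncard_eq_toFinset_card' u] at hu
  refine lt_of_lt_of_le hu ?_
  rw [← Set.ncard_coe_finset]
  set G' := ((⊤ : Γ.Subgraph).deleteVerts u).coe with hG'
  have hv : ∀ x : ((⊤ : Γ.Subgraph).deleteVerts u).verts, x.1 ∉ u.toFinset := by
    intro x
    have := x.2.2
    simpa using this
  have hreach : ∀ x y, G'.Reachable x y ↔ Rch Γ u.toFinset x.1 y.1 := by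
    intro x y
    constructor
    · intro hxy
      rw [SimpleGraph.reachable_iff_reflTransGen] at hxy
      induction hxy with
      | refl => exact Rch.refl _
      | @tail b c _ hbc ih =>
        refine ih.trans (Rch.single (hv b) (hv c) ?_)
        rw [hG', SimpleGraph.Subgraph.coe_adj] at hbc
        exact hbc.adj_sub
    · obtain ⟨y, hy⟩ := y
      intro hxy
      simp only at hxy
      induction hxy with
      | refl => rfl
      | @tail b c _ hbc ih =>
        have hb : b ∈ ((⊤ : Γ.Subgraph).deleteVerts u).verts := by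
          simpa using hbc.1
        refine (ih hb).trans (SimpleGraph.Adj.reachable ?_)
        rw [hG', SimpleGraph.Subgraph.coe_adj, SimpleGraph.Subgraph.deleteVerts_adj]
        exact ⟨trivial, hb.2, trivial, hy.2, hbc.2.2⟩
  refine Set.ncard_le_ncard_of_injOn (fun c => (Subtype.val '' c.supp).toFinset) ?_ ?_
  · intro c hc
    induction c using SimpleGraph.ConnectedComponent.ind with
    | _ x =>
      rw [Finset.mem_coe, mem_odds]
      refine ⟨⟨x.1, hv x, ?_⟩, ?_⟩
      · ext b
        simp only [mem_cls, Set.mem_toFinset, Set.mem_image,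
          SimpleGraph.ConnectedComponent.mem_supp_iff, SimpleGraph.ConnectedComponent.eq]
        constructor
        · intro hb
          have hb' : b ∈ ((⊤ : Γ.Subgraph).deleteVerts u).verts := by
            simpa using hb.notMem (hv x)
          exact ⟨⟨b, hb'⟩, (hreach _ _).2 hb.symm, rfl⟩
        · rintro ⟨y, hy, rfl⟩
          exact ((hreach _ _).1 hy).symm
      · rw [← Set.ncard_eq_toFinset_card', Set.ncard_image_of_injective _ Subtype.val_injective]
        exact hc
  · intro c _ c' _ hcc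
    simp only [Set.toFinset_inj] at hcc
    rw [Set.image_eq_image Subtype.val_injective] at hcc
    exact SimpleGraph.ConnectedComponent.supp_injective hcc

theorem odds_parity (Z : Finset A) (hA : Even (Fintype.card A)) :
    Even ((odds Γ Z).card + Z.card) := by
  have h1 : (Finset.univ.filter (fun a => a ∉ Z)).card =
      ∑ Q ∈ (Finset.univ.filter (fun a => a ∉ Z)).image (cls Γ Z), Q.card := by
    rw [Finset.card_eq_sum_card_image (cls Γ Z)]
    refine Finset.sum_congr rfl fun Q hQ => ?_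
    simp only [Finset.mem_image, Finset.mem_filter, Finset.mem_univ, true_and] at hQ
    obtain ⟨a, ha, rfl⟩ := hQ
    congr 1
    ext b
    simp only [Finset.mem_filter, Finset.mem_univ, true_and, cls_eq_iff, mem_cls]
    exact ⟨fun h => h.2.symm, fun h => ⟨h.notMem ha, h.symm⟩⟩
  have h2 : Even (Finset.univ.filter (fun a => a ∉ Z)).card ↔ Even (odds Γ Z).card := by
    rw [h1, Finset.even_sum_iff_even_card_odd]; rfl
  have h3 : (Finset.univ.filter (fun a => a ∉ Z)).card + Z.card = Fintype.card A := by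
    have := Finset.card_filter_add_card_filter_not (s := Finset.univ) (fun a => a ∉ Z)
    simp only [not_not, Finset.filter_mem_eq_inter, Finset.univ_inter, Finset.card_univ] at this
    exact this
  rw [← h3] at hA
  rw [Nat.even_add] at hA ⊢
  rw [← h2]; exact hA

theorem exists_min_violator (hA : Even (Fintype.card A))
    (h : ∀ M : Γ.Subgraph, ¬ M.IsPerfectMatching) :
    ∃ Z : Finset A, Z.card + 2 ≤ (odds Γ Z).card ∧ ∀ X ⊆ Z, X.Nonempty →
      X.card + 2 ≤ ((odds Γ Z).filter (fun Q => ∃ a ∈ Q, ∃ x ∈ X, Γ.Adj x a)).card := by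
  obtain ⟨Z, hZ, hmin⟩ := Finset.exists_min_image
    (Finset.univ.filter (fun Z : Finset A => Z.card < (odds Γ Z).card)) Finset.card
    (by obtain ⟨Z, hZ⟩ := exists_violator h; exact ⟨Z, by simpa using hZ⟩)
  simp only [Finset.mem_filter, Finset.mem_univ, true_and] at hZ hmin
  have h2 : Z.card + 2 ≤ (odds Γ Z).card := by
    obtain ⟨r, hr⟩ := odds_parity (Γ := Γ) Z hA
    omega
  refine ⟨Z, h2, fun X hX hne => ?_⟩
  have h3 : (Z \ X).card + X.card = Z.card := Finset.card_sdiff_add_card_eq_card hX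
  have h4 : (odds Γ (Z \ X)).card ≤ (Z \ X).card := by
    by_contra hn
    have := hmin (Z \ X) (by omega)
    have := hne.card_pos
    omega
  have h5 : (odds Γ Z).filter (fun Q => ¬ ∃ a ∈ Q, ∃ x ∈ X, Γ.Adj x a) ⊆ odds Γ (Z \ X) := by
    intro Q hQ
    rw [Finset.mem_filter, mem_odds] at hQ
    obtain ⟨⟨⟨a, ha, rfl⟩, hodd⟩, hQ⟩ := hQ
    rw [mem_odds]
    refine ⟨⟨a, fun h => ha (Finset.mem_sdiff.1 h).1, ?_⟩, hodd⟩
    ext b
    simp only [mem_cls]
    constructor
    · intro hb
      induction hb with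
      | refl => exact Rch.refl _
      | @tail b c _ hbc ih =>
        refine ih.trans (Rch.single (ih.notMem ha) ?_ hbc.2.2)
        intro hc
        apply hQ
        refine ⟨b, mem_cls.2 ih, c, ?_, hbc.2.2.symm⟩
        by_contra hcX
        exact hbc.2.1 (Finset.mem_sdiff.2 ⟨hc, hcX⟩)
    · intro hb
      exact rtg_mono (fun a b h => ⟨fun h' => h.1 (Finset.mem_sdiff.1 h').1,
        fun h' => h.2.1 (Finset.mem_sdiff.1 h').1, h.2.2⟩) hb
  have h6 := Finset.card_le_card h5
  have h7 := Finset.card_filter_add_card_filter_not (s := odds Γ Z)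
    (fun Q => ∃ a ∈ Q, ∃ x ∈ X, Γ.Adj x a)
  omega

/-- If the neighbours of `X` lie in a set `N` that is barely large enough, all elements of `N`
lie in pairwise distinct odd components. -/
theorem tight (X N : Finset A) (hN : ∀ x ∈ X, ∀ a, Γ.Adj x a → a ∈ N) (hc : N.card ≤ X.card + 2)
    (h : X.card + 2 ≤ ((odds Γ Z).filter (fun Q => ∃ a ∈ Q, ∃ x ∈ X, Γ.Adj x a)).card) :
    (∀ a ∈ N, a ∉ Z ∧ Odd (cls Γ Z a).card) ∧ ∀ a ∈ N, ∀ b ∈ N, Rch Γ Z a b → a = b := by
  set N' := N.filter (fun a => a ∉ Z ∧ Odd (cls Γ Z a).card) with hN'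
  have h1 : (odds Γ Z).filter (fun Q => ∃ a ∈ Q, ∃ x ∈ X, Γ.Adj x a) ⊆ N'.image (cls Γ Z) := by
    intro Q hQ
    rw [Finset.mem_filter, mem_odds] at hQ
    obtain ⟨⟨⟨b, hb, rfl⟩, hodd⟩, a, ha, x, hx, hxa⟩ := hQ
    rw [Finset.mem_image]
    refine ⟨a, ?_, (cls_eq_of_mem ha).symm⟩
    rw [hN', Finset.mem_filter]
    exact ⟨hN x hx a hxa, (mem_cls.1 ha).notMem hb, by rwa [← cls_eq_of_mem ha]⟩
  have h2 := Finset.card_le_card h1
  have h3 : (N'.image (cls Γ Z)).card ≤ N'.card := Finset.card_image_le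
  have h4 : N' ⊆ N := Finset.filter_subset _ _
  have h5 := Finset.card_le_card h4
  have h6 : N' = N := Finset.eq_of_subset_of_card_le h4 (by omega)
  have h7 : Set.InjOn (cls Γ Z) N' := Finset.injOn_of_card_image_eq (by omega)
  refine ⟨fun a ha => ?_, fun a ha b hb hab => ?_⟩
  · rw [← h6, hN', Finset.mem_filter] at ha
    exact ha.2
  · rw [h6] at h7
    exact h7 ha hb (cls_eq_iff.2 hab)

end Pool.Agent.MP_aee211_co.H75
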