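import Pool.Agent.MP_aee211_co.H75.Defs
import Pool.Agent.MP_aee211_co.H75.Viol

/-! The gadget graph whose perfect matchings give 2-factors, and the obstruction to a 2-factor. -/

namespace Pool.Agent.MP_aee211_co.H75

open scoped Classical
open Sum

variable {V : Type}

/-- Two copies of each vertex and one node per dart. -/
def gad (G : SimpleGraph V) : SimpleGraph ((V × Bool) ⊕ G.Dart) where
  Adj
    | inl a, inr d => d.fst = a.1
    | inr d, inl a => d.fst = a.1
    | inr d, inr e => e = d.symm
    | inl _, inl _ => False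
  symm.symm := by
    rintro (a | d) (b | e) h
    · exact h
    · exact h
    · exact h
    · have h' : e = d.symm := h
      show d = e.symm
      rw [h', SimpleGraph.Dart.symm_symm]
  loopless.irrefl := by
    rintro (a | d) h
    · exact h
    · exact d.symm_ne (Eq.symm h)

variable {G : SimpleGraph V}

theorem gad_ll (a b : V × Bool) : (gad G).Adj (inl a) (inl b) ↔ False := Iff.rfl
theorem gad_lr (a : V × Bool) (d : G.Dart) : (gad G).Adj (inl a) (inr d) ↔ d.fst = a.1 := Iff.rfl
theorem gad_rl (a : V × Bool) (d : G.Dart) : (gad G).Adj (inr d) (inl a) ↔ d.fst = a.1 := Iff.rfl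
theorem gad_rr (d e : G.Dart) : (gad G).Adj (inr d) (inr e) ↔ e = d.symm := Iff.rfl

theorem twoFactor_of_pm (M : (gad G).Subgraph) (hM : M.IsPerfectMatching) : HasTwoFactor G := by
  rw [SimpleGraph.Subgraph.isPerfectMatching_iff] at hM
  have huniq : ∀ a b c, M.Adj a b → M.Adj a c → b = c := fun a b c h1 h2 =>
    (hM a).unique h1 h2
  let H : SimpleGraph V :=
    { Adj := fun u v => ∃ h : G.Adj u v,
        ¬ M.Adj (inr ⟨(u, v), h⟩) (inr ⟨(v, u), h.symm⟩)
      symm := ⟨fun u v ⟨h, h'⟩ => ⟨h.symm, fun h'' => h' h''.symm⟩⟩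
      loopless := ⟨fun u ⟨h, _⟩ => G.irrefl h⟩ }
  refine ⟨H, fun u v h => h.1, fun v => ?_⟩
  have hc : ∀ i : Bool, ∃ d : G.Dart, d.fst = v ∧ M.Adj (inl (v, i)) (inr d) := by
    intro i
    obtain ⟨w, hw, -⟩ := hM (inl (v, i))
    cases w with
    | inl b => exact absurd hw.adj_sub (gad_ll _ _).1
    | inr d => exact ⟨d, (gad_lr _ _).1 hw.adj_sub, hw⟩
  choose f hf1 hf2 using hc
  have hne : (f false).snd ≠ (f true).snd := by
    intro h
    have h1 : f false = f true := SimpleGraph.Dart.ext _ _ (Prod.ext (by rw [hf1, hf1]) h)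
    have h2 := huniq _ _ _ (hf2 false).symm (h1 ▸ (hf2 true).symm)
    simp at h2
  have : H.neighborSet v = {(f false).snd, (f true).snd} := by
    ext w
    simp only [SimpleGraph.mem_neighborSet, Set.mem_insert_iff, Set.mem_singleton_iff]
    constructor
    · rintro ⟨h, h'⟩
      obtain ⟨x, hx, -⟩ := hM (inr ⟨(v, w), h⟩)
      cases x with
      | inr e =>
        have : e = _ := (gad_rr _ _).1 hx.adj_sub
        subst this
        exact absurd hx h'
      | inl a =>
        obtain ⟨a, i⟩ := a
        have : v = a := (gad_rl _ _).1 hx.adj_sub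
        subst this
        have h2 := huniq _ _ _ hx.symm (hf2 i)
        simp only [inr.injEq] at h2
        have h3 : w = (f i).snd := by rw [← h2]
        cases i
        · exact Or.inl h3
        · exact Or.inr h3
    · have key : ∀ i, H.Adj v (f i).snd := by
        intro i
        have h1 : G.Adj v (f i).snd := by
          have := (f i).adj
          rwa [hf1] at this
        refine ⟨h1, fun h => ?_⟩
        have h2 : (⟨(v, (f i).snd), h1⟩ : G.Dart) = f i :=
          SimpleGraph.Dart.ext _ _ (Prod.ext (hf1 i).symm rfl)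
        rw [h2] at h
        have := huniq _ _ _ h (hf2 i).symm
        simp at this
      rintro (rfl | rfl)
      · exact key false
      · exact key true
  rw [this, Set.ncard_pair hne]

/-- The involution exchanging the copies of a vertex and reversing darts. -/
def flp (G : SimpleGraph V) : (V × Bool) ⊕ G.Dart → (V × Bool) ⊕ G.Dart
  | inl a => inl (a.1, !a.2)
  | inr d => inr d.symm

theorem flp_flp (x : (V × Bool) ⊕ G.Dart) : flp G (flp G x) = x := by
  rcases x with ⟨v, i⟩ | d <;> simp [flp]

theorem flp_ne (x : (V × Bool) ⊕ G.Dart) : flp G x ≠ x := by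
  rcases x with ⟨v, i⟩ | d
  · cases i <;> simp [flp]
  · simp [flp, d.symm_ne]

/-- Darts ending in `T`. -/
def isDg (G : SimpleGraph V) (T : Finset V) : (V × Bool) ⊕ G.Dart → Prop
  | inl _ => False
  | inr d => d.snd ∈ T

variable [Fintype V]

/-- Components of `G - (S ∪ T)` sending at least two edges to `T`. -/
noncomputable def big (G : SimpleGraph V) (S T : Finset V) : Finset (Finset V) :=
  (Finset.univ.filter (fun u => u ∉ S ∪ T ∧ ∃ d d' : G.Dart, d ≠ d' ∧
    Rch G (S ∪ T) u d.fst ∧ Rch G (S ∪ T) u d'.fst ∧ d.snd ∈ T ∧ d'.snd ∈ T)).image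
    (cls G (S ∪ T))

theorem structure_thm (hdeg : ∀ v, ∃ w, G.Adj v w) (hno : ¬ HasTwoFactor G) :
    ∃ S T : Finset V, Disjoint S T ∧ (∀ t ∈ T, ∀ t' ∈ T, ¬ G.Adj t t') ∧
      (∀ t ∈ T, ∀ u u', u ∉ S ∪ T → G.Adj u t → G.Adj u' t →
        Rch G (S ∪ T) u u' → u = u') ∧
      S.card + (big G S T).card + 1 ≤ T.card := by
  have hA : Even (Fintype.card ((V × Bool) ⊕ G.Dart)) :=
    even_card_of_invol Finset.univ (flp G) (fun _ _ => Finset.mem_univ _)
      (fun a _ => flp_flp a) (fun a _ => flp_ne a)
  obtain ⟨Z, hZ, hmin⟩ := exists_min_violator (Γ := gad G) hA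
    (fun M hM => hno (twoFactor_of_pm M hM))
  set T : Finset V := Finset.univ.filter (fun v => ∃ d : G.Dart, d.fst = v ∧ inr d ∈ Z) with hT
  set S : Finset V := Finset.univ.filter (fun v => ∃ i, inl (v, i) ∈ Z) with hS
  have ha : ∀ d : G.Dart, inr d ∈ Z → (∀ i, inl (d.fst, i) ∉ Z) ∧ inr d.symm ∉ Z ∧
      ¬ Rch (gad G) Z (inl (d.fst, false)) (inl (d.fst, true)) := by
    intro d hd
    have := tight (Γ := gad G) (Z := Z) {inr d} {inl (d.fst, false), inl (d.fst, true), inr d.symm}
      (by
        intro x hx a hxa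
        rw [Finset.mem_singleton] at hx
        subst hx
        rcases a with ⟨v, i⟩ | e
        · have : d.fst = v := hxa
          subst this
          cases i <;> simp
        · have : e = d.symm := hxa
          simp [this])
      (by simp)
      (hmin _ (by simpa using hd) (by simp))
    refine ⟨fun i => ?_, (this.1 _ (by simp)).1, fun h => ?_⟩
    · exact (this.1 _ (by cases i <;> simp)).1
    · have := this.2 _ (by simp) _ (by simp) h
      simp at this
  have hb : ∀ d : G.Dart, inr d ∈ Z ↔ d.fst ∈ T := by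
    intro d
    simp only [hT, Finset.mem_filter, Finset.mem_univ, true_and]
    refine ⟨fun h => ⟨d, rfl, h⟩, ?_⟩
    rintro ⟨e, he, heZ⟩
    by_contra hd
    obtain ⟨h1, -, h3⟩ := ha e heZ
    exact h3 ((Rch.single (h1 false) hd he.symm).trans (Rch.single hd (h1 true) he.symm))
  have hc : ∀ v i, inl (v, i) ∈ Z ↔ v ∈ S := by
    intro v i
    simp only [hS, Finset.mem_filter, Finset.mem_univ, true_and]
    refine ⟨fun h => ⟨i, h⟩, ?_⟩
    rintro ⟨j, hj⟩
    by_contra hi
    have h1 := hmin {inl (v, j)} (by simpa using hj) (by simp)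
    have h2 : (odds (gad G) Z).filter (fun Q => ∃ a ∈ Q, ∃ x ∈ ({inl (v, j)} : Finset _),
        (gad G).Adj x a) ⊆ {cls (gad G) Z (inl (v, i))} := by
      intro Q hQ
      rw [Finset.mem_filter, mem_odds] at hQ
      obtain ⟨⟨⟨b, hb, rfl⟩, -⟩, a, ha, x, hx, hxa⟩ := hQ
      rw [Finset.mem_singleton] at hx ⊢
      subst hx
      rw [cls_eq_of_mem ha, cls_eq_iff]
      rcases a with a | e
      · exact absurd hxa (gad_ll _ _).1
      · exact Rch.single ((mem_cls.1 ha).notMem hb) hi hxa
    have := Finset.card_le_card h2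
    simp only [Finset.card_singleton] at this h1
    omega
  have hd : Disjoint S T := by
    rw [Finset.disjoint_left]
    intro v hvS hvT
    obtain ⟨w, hw⟩ := hdeg v
    exact (ha ⟨(v, w), hw⟩ ((hb _).2 hvT)).1 false ((hc _ _).2 hvS)
  have he : ∀ t ∈ T, ∀ t' ∈ T, ¬ G.Adj t t' := by
    intro t ht t' ht' h
    exact (ha ⟨(t, t'), h⟩ ((hb _).2 ht)).2.1 ((hb _).2 ht')
  have hf : ∀ t ∈ T, (∀ d : G.Dart, d.snd = t → Odd (cls (gad G) Z (inr d)).card) ∧
      ∀ d d' : G.Dart, d.snd = t → d'.snd = t → Rch (gad G) Z (inr d) (inr d') → d = d' := by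
    intro t ht
    set D : Finset G.Dart := Finset.univ.filter (fun d => d.fst = t) with hD
    have hDm : ∀ d : G.Dart, d.snd = t → inr d ∈ insert (inl (t, false)) (insert (inl (t, true))
        (D.image (fun d => (inr d.symm : (V × Bool) ⊕ G.Dart)))) := by
      intro d hdt
      refine Finset.mem_insert_of_mem (Finset.mem_insert_of_mem ?_)
      exact Finset.mem_image.2 ⟨d.symm, by simpa [hD] using hdt, by simp⟩
    have := tight (Γ := gad G) (Z := Z) (D.image inr)
      (insert (inl (t, false)) (insert (inl (t, true)) (D.image (fun d => inr d.symm))))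
      (by
        intro x hx a hxa
        obtain ⟨d, hd, rfl⟩ := Finset.mem_image.1 hx
        have hdt : d.fst = t := by simpa [hD] using hd
        rcases a with ⟨v, i⟩ | e
        · have : d.fst = v := hxa
          rw [← this, hdt]
          cases i <;> simp
        · have : e = d.symm := hxa
          exact hDm e (by rw [this]; exact hdt))
      (by
        rw [Finset.card_image_of_injective _ inr_injective]
        have h1 := Finset.card_insert_le (inl (t, false) : (V × Bool) ⊕ G.Dart)
          (insert (inl (t, true)) (D.image (fun d => inr d.symm)))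
        have h2 := Finset.card_insert_le (inl (t, true) : (V × Bool) ⊕ G.Dart)
          (D.image (fun d => inr d.symm))
        have h3 : (D.image (fun d => (inr d.symm : (V × Bool) ⊕ G.Dart))).card ≤ D.card :=
          Finset.card_image_le
        omega)
      (hmin _ (by
          intro x hx
          obtain ⟨d, hd, rfl⟩ := Finset.mem_image.1 hx
          have hdt : d.fst = t := by simpa [hD] using hd
          exact (hb d).2 (hdt ▸ ht))
        (by
          obtain ⟨w, hw⟩ := hdeg t
          exact ⟨inr ⟨(t, w), hw⟩, Finset.mem_image.2 ⟨_, by simp [hD], rfl⟩⟩))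
    refine ⟨fun d hd => (this.1 _ (hDm d hd)).2, fun d d' h1 h2 h => ?_⟩
    simpa using this.2 _ (hDm d h1) _ (hDm d' h2) h
  -- from `G` to the gadget
  have hcp : ∀ u i, u ∉ S ∪ T → inl (u, i) ∉ Z := fun u i hu h =>
    hu (Finset.mem_union_left _ ((hc u i).1 h))
  have hdt : ∀ d : G.Dart, d.fst ∉ S ∪ T → inr d ∉ Z := fun d hu h =>
    hu (Finset.mem_union_right _ ((hb d).1 h))
  have hGΓ : ∀ u v, Rch G (S ∪ T) u v → Rch (gad G) Z (inl (u, false)) (inl (v, false)) := by
    intro u v h
    induction h with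
    | refl => exact Rch.refl _
    | @tail b c _ hbc ih =>
      obtain ⟨h1, h2, h3⟩ := hbc
      refine ih.trans ((Rch.single (hcp _ _ h1) (hdt ⟨(b, c), h3⟩ h1) rfl).trans
        ((Rch.single (hdt ⟨(b, c), h3⟩ h1) (hdt ⟨(c, b), h3.symm⟩ h2) rfl).trans
        (Rch.single (hdt ⟨(c, b), h3.symm⟩ h2) (hcp _ _ h2) rfl)))
  have hcd : ∀ d : G.Dart, d.fst ∉ S ∪ T → Rch (gad G) Z (inl (d.fst, false)) (inr d) :=
    fun d h => Rch.single (hcp _ _ h) (hdt d h) rfl
  -- from the gadget to `G`
  let β : (V × Bool) ⊕ G.Dart → V := fun x => match x with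
    | inl a => a.1
    | inr d => if d.fst ∈ S then d.snd else d.fst
  have hΓG : ∀ u x, u ∉ S ∪ T → Rch (gad G) Z (inl (u, false)) x → Rch G (S ∪ T) u (β x) := by
    intro u x hu h
    induction h with
    | refl => exact Rch.refl _
    | @tail b c _ hbc ih =>
      obtain ⟨h1, h2, h3⟩ := hbc
      have h4 := ih.notMem hu
      rcases b with ⟨v, i⟩ | d <;> rcases c with ⟨w, j⟩ | e
      · exact absurd h3 (gad_ll _ _).1
      · have h5 : e.fst = v := h3
        have h6 : v ∉ S := fun h => h4 (Finset.mem_union_left _ h)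
        simp only [β, h5, h6, if_false] at ih ⊢
        exact ih
      · have h5 : d.fst = w := h3
        have h6 : w ∉ S := fun h => h2 ((hc _ _).2 h)
        simp only [β, h5, h6, if_false] at ih ⊢
        exact ih
      · have h5 : e = d.symm := h3
        subst h5
        have h6 : d.snd ∉ T := fun h => h2 ((hb _).2 h)
        by_cases h7 : d.fst ∈ S
        · have h8 : d.snd ∉ S := by
            simp only [β, h7, if_true] at h4
            exact fun h => h4 (Finset.mem_union_left _ h)
          have h9 : d.symm.fst ∉ S := h8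
          simp only [β, h7, h9, if_true, if_false] at ih ⊢
          exact ih
        · by_cases h8 : d.symm.fst ∈ S
          · simp only [β, h7, h8, if_true, if_false] at ih ⊢
            exact ih
          · simp only [β, h7, h8, if_false] at ih h4 ⊢
            refine ih.trans (Rch.single h4 ?_ d.adj)
            rw [Finset.mem_union, not_or]
            exact ⟨h8, h6⟩
  refine ⟨S, T, hd, he, ?_, ?_⟩
  · intro t ht u u' hu h1 h2 h
    have hu' := h.notMem hu
    have := (hf t ht).2 ⟨(u, t), h1⟩ ⟨(u', t), h2⟩ rfl rfl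
      ((hcd ⟨(u, t), h1⟩ hu).symm.trans ((hGΓ _ _ h).trans (hcd ⟨(u', t), h2⟩ hu')))
    exact congrArg (fun d : G.Dart => d.fst) this
  -- counting
  set Dg : Finset ((V × Bool) ⊕ G.Dart) := Finset.univ.filter (isDg G T) with hDg
  have hZc : 2 * S.card + Dg.card ≤ Z.card := by
    have h1 : ((S ×ˢ (Finset.univ : Finset Bool)).image inl ∪ Dg.image (flp G)) ⊆ Z := by
      intro x hx
      rcases Finset.mem_union.1 hx with hx | hx
      · obtain ⟨⟨v, i⟩, hv, rfl⟩ := Finset.mem_image.1 hx
        exact (hc v i).2 (Finset.mem_product.1 hv).1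
      · obtain ⟨y, hy, rfl⟩ := Finset.mem_image.1 hx
        have hy' : isDg G T y := by simpa [hDg] using hy
        rcases y with a | d
        · exact hy'.elim
        · exact (hb _).2 hy'
    have h2 := Finset.card_le_card h1
    rw [Finset.card_union_of_disjoint, Finset.card_image_of_injective _ inl_injective,
      Finset.card_image_of_injective _ (Function.Involutive.injective flp_flp),
      Finset.card_product] at h2
    · simp only [Finset.card_univ, Fintype.card_bool] at h2
      omega
    · rw [Finset.disjoint_left]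
      intro x hx hx'
      obtain ⟨a, -, rfl⟩ := Finset.mem_image.1 hx
      obtain ⟨y, hy, h⟩ := Finset.mem_image.1 hx'
      have hy' : isDg G T y := by simpa [hDg] using hy
      rcases y with a | d
      · exact hy'.elim
      · simp [flp] at h
  have hsing : ∀ t ∈ T, ∀ i, cls (gad G) Z (inl (t, i)) = {inl (t, i)} := by
    intro t ht i
    ext x
    rw [mem_cls, Finset.mem_singleton]
    refine ⟨fun h => ?_, fun h => h ▸ Rch.refl _⟩
    induction h with
    | refl => rfl
    | @tail b c _ hbc ih =>
      subst ih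
      rcases c with a | e
      · exact absurd hbc.2.2 (gad_ll _ _).1
      · have : e.fst = t := hbc.2.2
        exact absurd ((hb e).2 (this ▸ ht)) hbc.2.1
  set Tc : Finset (Finset ((V × Bool) ⊕ G.Dart)) :=
    (T ×ˢ (Finset.univ : Finset Bool)).image (fun a => {inl a}) with hTc
  have hTcc : Tc.card ≤ 2 * T.card := by
    refine le_trans Finset.card_image_le ?_
    simp [Finset.card_product, mul_comm]
  set oth := odds (gad G) Z \ Tc with hoth
  have hoc : (odds (gad G) Z).card ≤ oth.card + Tc.card := Finset.card_le_card_sdiff_add_card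
  have hodd : ∀ Q ∈ oth, Odd (Q.filter (isDg G T)).card := by
    intro Q hQ
    rw [hoth, Finset.mem_sdiff, mem_odds] at hQ
    obtain ⟨⟨⟨a, haZ, rfl⟩, hQo⟩, hQ⟩ := hQ
    have h1 := Finset.card_filter_add_card_filter_not (s := cls (gad G) Z a) (isDg G T)
    have h2 : Even ((cls (gad G) Z a).filter (fun x => ¬ isDg G T x)).card := by
      refine even_card_of_invol _ (flp G) ?_ (fun a _ => flp_flp a) (fun a _ => flp_ne a)
      intro x hx
      rw [Finset.mem_filter, mem_cls] at hx ⊢
      have hxZ := hx.1.notMem haZ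
      rcases x with ⟨v, i⟩ | d
      · have hvT : v ∉ T := by
          intro hv
          apply hQ
          rw [cls_eq_iff.2 hx.1, hsing v hv]
          exact Finset.mem_image.2 ⟨(v, i), by simpa using hv, rfl⟩
        obtain ⟨w, hw⟩ := hdeg v
        have h3 : inr (⟨(v, w), hw⟩ : G.Dart) ∉ Z := fun h => hvT ((hb _).1 h)
        have h4 : inl (v, !i) ∉ Z := fun h => hxZ ((hc _ _).2 ((hc _ _).1 h))
        exact ⟨hx.1.trans ((Rch.single hxZ h3 rfl).trans (Rch.single h3 h4 rfl)), fun h => h⟩
      · exact ⟨hx.1.trans (Rch.single hxZ (fun h => hx.2 ((hb _).1 h)) rfl),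
          fun h => hxZ ((hb _).2 h)⟩
    obtain ⟨r, hr⟩ := h2
    obtain ⟨r', hr'⟩ := hQo
    rw [Nat.odd_iff]
    omega
  have hsum : ∑ Q ∈ oth, (Q.filter (isDg G T)).card ≤ Dg.card := by
    rw [← Finset.card_biUnion]
    · refine Finset.card_le_card fun x hx => ?_
      obtain ⟨Q, -, hx⟩ := Finset.mem_biUnion.1 hx
      simp [hDg, (Finset.mem_filter.1 hx).2]
    · intro Q hQ Q' hQ' hne
      rw [Function.onFun, Finset.disjoint_left]
      intro x hx hx'
      apply hne
      rw [Finset.mem_coe, hoth, Finset.mem_sdiff, mem_odds] at hQ hQ'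
      obtain ⟨⟨⟨a, -, rfl⟩, -⟩, -⟩ := hQ
      obtain ⟨⟨⟨a', -, rfl⟩, -⟩, -⟩ := hQ'
      rw [cls_eq_of_mem (Finset.mem_filter.1 hx).1, cls_eq_of_mem (Finset.mem_filter.1 hx').1]
  set bg := oth.filter (fun Q => 2 ≤ (Q.filter (isDg G T)).card) with hbg
  have hsum2 : oth.card + 2 * bg.card ≤ ∑ Q ∈ oth, (Q.filter (isDg G T)).card := by
    rw [hbg, Finset.card_filter, Finset.mul_sum, Finset.card_eq_sum_ones, ← Finset.sum_add_distrib]
    refine Finset.sum_le_sum fun Q hQ => ?_
    obtain ⟨r, hr⟩ := hodd Q hQ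
    split_ifs <;> omega
  have hbig : (big G S T).card ≤ bg.card := by
    have : big G S T ⊆ bg.image
        (fun Q => Finset.univ.filter (fun v => v ∉ S ∪ T ∧ inl (v, false) ∈ Q)) := by
      intro C hC
      obtain ⟨u, hu, rfl⟩ := Finset.mem_image.1 hC
      simp only [Finset.mem_filter, Finset.mem_univ, true_and] at hu
      obtain ⟨hu, d, d', hne, h1, h2, h3, h4⟩ := hu
      have h5 := (hGΓ _ _ h1).trans (hcd d (h1.notMem hu))
      have h6 := (hGΓ _ _ h2).trans (hcd d' (h2.notMem hu))
      refine Finset.mem_image.2 ⟨cls (gad G) Z (inl (u, false)), ?_, ?_⟩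
      · rw [hbg, Finset.mem_filter, hoth, Finset.mem_sdiff, mem_odds]
        refine ⟨⟨⟨⟨_, hcp _ _ hu, rfl⟩, ?_⟩, ?_⟩, ?_⟩
        · rw [cls_eq_iff.2 h5]
          exact (hf _ h3).1 d rfl
        · intro h
          obtain ⟨a, -, ha⟩ := Finset.mem_image.1 h
          have := mem_cls.2 h5
          rw [← ha] at this
          simp at this
        · have : ({inr d, inr d'} : Finset ((V × Bool) ⊕ G.Dart)) ⊆
              (cls (gad G) Z (inl (u, false))).filter (isDg G T) := by
            intro x hx
            simp only [Finset.mem_insert, Finset.mem_singleton] at hx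
            rcases hx with rfl | rfl
            · exact Finset.mem_filter.2 ⟨mem_cls.2 h5, h3⟩
            · exact Finset.mem_filter.2 ⟨mem_cls.2 h6, h4⟩
          have h7 := Finset.card_le_card this
          rwa [Finset.card_pair (by simpa using hne)] at h7
      · ext v
        simp only [Finset.mem_filter, Finset.mem_univ, true_and, mem_cls]
        exact ⟨fun h => hΓG u _ hu h.2, fun h => ⟨h.notMem hu, hGΓ _ _ h⟩⟩
    exact le_trans (Finset.card_le_card this) Finset.card_image_le
  omega

end Pool.Agent.MP_aee211_co.H75
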