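import Pool.Agent.MP_aee211_co.H75.Euler
import Pool.Agent.MP_aee211_co.H75.Gadget

/-! A `k`-connected graph (`k ≥ 4`) of Euler genus at most `γ` without a 2-factor satisfies
`(k - 1) (k - 2) ≤ 2 γ`. -/

namespace Pool.Agent.MP_aee211_co.H75

open scoped Classical
open Sum

variable {V : Type} {G : SimpleGraph V}

theorem KConn.rch {k : ℕ} (hk : KConn G k) {S : Finset V} (hS : S.card < k) {u v : V}
    (hu : u ∉ S) (hv : v ∉ S) : Rch G S u v := by
  have h := (hk.2 S hS) ⟨u, by simpa using hu⟩ ⟨v, by simpa using hv⟩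
  rw [SimpleGraph.reachable_iff_reflTransGen] at h
  have key : ∀ x y : ((S : Set V)ᶜ : Set V),
      Relation.ReflTransGen (G.induce ((S : Set V)ᶜ)).Adj x y → Rch G S x.1 y.1 := by
    intro x y h
    induction h with
    | refl => exact Rch.refl _
    | @tail b c _ hbc ih =>
      exact ih.trans (Rch.single (fun h => b.2 (Finset.mem_coe.2 h)) (fun h => c.2 (Finset.mem_coe.2 h)) hbc)
  exact key _ _ h

theorem KConn.connected {k : ℕ} (hk : KConn G k) (h1 : 1 ≤ k) : G.Connected := by
  have hne : Nonempty V := by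
    have := hk.1
    exact (Nat.card_pos_iff.1 (by omega)).1
  refine SimpleGraph.Connected.mk fun u v => ?_
  rw [SimpleGraph.reachable_iff_reflTransGen]
  exact rtg_mono (fun a b h => h.2.2)
    (hk.rch (S := ∅) (by simp only [Finset.card_empty]; omega) (by simp) (by simp))

theorem KConn.boundary [Fintype V] {k : ℕ} (hk : KConn G k) (A : Finset V) {t : V} (ht : t ∈ A)
    (hN : (Finset.univ.filter (fun v => v ∉ A ∧ ∃ u ∈ A, G.Adj u v)).card < k) (w : V) :
    w ∈ A ∨ ∃ u ∈ A, G.Adj u w := by
  by_contra hn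
  rw [not_or] at hn
  have h := hk.rch hN (u := t) (v := w) (by simp [ht]) 
    (fun h => hn.2 (Finset.mem_filter.1 h).2.2)
  apply hn.1
  clear hn
  induction h with
  | refl => exact ht
  | @tail b c _ hbc ih =>
    by_contra hc
    exact hbc.2.1 (Finset.mem_filter.2 ⟨Finset.mem_univ _, hc, b, ih, hbc.2.2⟩)

theorem KConn.degree [Fintype V] {k : ℕ} (hk : KConn G k) (t : V) :
    k ≤ (Finset.univ.filter (fun v => G.Adj t v)).card := by
  by_contra hn
  have h1 : Finset.univ.filter (fun v => v ∉ ({t} : Finset V) ∧ ∃ u ∈ ({t} : Finset V), G.Adj u v)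
      ⊆ Finset.univ.filter (fun v => G.Adj t v) := by
    intro v hv
    simp only [Finset.mem_filter, Finset.mem_univ, true_and, Finset.mem_singleton,
      exists_eq_left] at hv ⊢
    exact hv.2
  have h2 := Finset.card_le_card h1
  have h3 := hk.boundary {t} (Finset.mem_singleton_self t) (by omega)
  have h4 : (Finset.univ : Finset V) ⊆ insert t (Finset.univ.filter (fun v => G.Adj t v)) := by
    intro v _
    simpa using h3 v
  have h5 := Finset.card_le_card h4
  have h6 := Finset.card_insert_le t (Finset.univ.filter (fun v => G.Adj t v))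
  have h7 := hk.1
  rw [Nat.card_eq_fintype_card, ← Finset.card_univ] at h7
  omega

theorem upper [Finite V] {k : ℕ} (hk4 : 4 ≤ k) (hk : KConn G k) (M : Scheme G) (γ : ℤ)
    (hγ : 2 - γ ≤ M.euler) (hno : ¬ HasTwoFactor G) : ((k : ℤ) - 1) * (k - 2) ≤ 2 * γ := by
  have : Fintype V := Fintype.ofFinite V
  have hdeg : ∀ v, ∃ w, G.Adj v w := by
    intro v
    have := hk.degree v
    obtain ⟨w, hw⟩ := Finset.card_pos.1 (lt_of_lt_of_le (by omega : 0 < k) this)
    exact ⟨w, by simpa using hw⟩
  obtain ⟨S, T, hST, hind, hone, hcount⟩ := structure_thm hdeg hno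
  set D := S ∪ T with hD
  have hTD : ∀ t ∈ T, t ∈ D := fun t ht => Finset.mem_union_right _ ht
  have hSD : ∀ t ∈ S, t ∈ D := fun t ht => Finset.mem_union_left _ ht
  -- components that are not big send at most one edge to `T`
  have huniq : ∀ u, u ∉ D → cls G D u ∉ big G S T → ∀ d d' : G.Dart,
      Rch G D u d.fst → Rch G D u d'.fst → d.snd ∈ T → d'.snd ∈ T → d = d' := by
    intro u hu hb d d' h1 h2 h3 h4
    by_contra hne
    exact hb (Finset.mem_image.2 ⟨u, Finset.mem_filter.2
      ⟨Finset.mem_univ _, hu, d, d', hne, h1, h2, h3, h4⟩, rfl⟩)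
  let π : V → V ⊕ Finset V := fun v =>
    if v ∈ D then inl v else
      if h : cls G D v ∉ big G S T ∧ ∃ d : G.Dart, Rch G D v d.fst ∧ d.snd ∈ T then
        inl h.2.choose.snd else inr (cls G D v)
  have hπD : ∀ v, v ∈ D → π v = inl v := fun v hv => by simp only [π, hv, if_true]
  have hπs : ∀ v, v ∉ D → cls G D v ∉ big G S T → ∀ d : G.Dart, Rch G D v d.fst → d.snd ∈ T →
      π v = inl d.snd := by
    intro v hv hb d h1 h2
    have h : cls G D v ∉ big G S T ∧ ∃ d : G.Dart, Rch G D v d.fst ∧ d.snd ∈ T :=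
      ⟨hb, d, h1, h2⟩
    simp only [π, hv, if_false, dif_pos h]
    rw [huniq v hv hb _ d h.2.choose_spec.1 h1 h.2.choose_spec.2 h2]
  have hπb : ∀ v, v ∉ D → cls G D v ∈ big G S T → π v = inr (cls G D v) := by
    intro v hv hb
    simp only [π, hv, if_false]
    rw [dif_neg (fun h => h.1 hb)]
  have hπl : ∀ v x, v ∉ D → π v = inl x → cls G D v ∉ big G S T ∧
      ∃ d : G.Dart, Rch G D v d.fst ∧ d.snd = x ∧ x ∈ T := by
    intro v x hv h
    simp only [π, hv, if_false] at h
    split_ifs at h with h'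
    · simp only [inl.injEq] at h
      exact ⟨h'.1, _, h'.2.choose_spec.1, h, h ▸ h'.2.choose_spec.2⟩
  have hπr : ∀ v Q, π v = inr Q → v ∉ D ∧ cls G D v = Q := by
    intro v Q h
    by_cases hv : v ∈ D
    · rw [hπD v hv] at h; simp at h
    · simp only [π, hv, if_false] at h
      split_ifs at h with h'
      simp only [inr.injEq] at h
      exact ⟨hv, h⟩
  have hπR : ∀ u v, u ∉ D → Rch G D u v → π u = π v := by
    intro u v hu h
    have hv := h.notMem hu
    have hc := cls_eq_iff.2 h
    by_cases hb : cls G D u ∈ big G S T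
    · rw [hπb u hu hb, hπb v hv (hc ▸ hb), hc]
    · by_cases hd : ∃ d : G.Dart, Rch G D u d.fst ∧ d.snd ∈ T
      · obtain ⟨d, h1, h2⟩ := hd
        rw [hπs u hu hb d h1 h2, hπs v hv (hc ▸ hb) d (h.symm.trans h1) h2]
      · simp only [π, hu, hv, if_false]
        rw [dif_neg (fun h => hd h.2), dif_neg, hc]
        rintro ⟨-, d, h1, h2⟩
        exact hd ⟨d, h.trans h1, h2⟩
  set F : V → V → Prop := fun a b => G.Adj a b ∧ π a = π b with hF
  have hFR : ∀ u v, Rch G D u v → Relation.ReflTransGen F u v := fun u v h =>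
    rtg_mono (fun a b h => ⟨h.2.2, hπR a b h.1 (Rch.single h.1 h.2.1 h.2.2)⟩) h
  have hFsymm : ∀ u v, Relation.ReflTransGen F u v → Relation.ReflTransGen F v u := by
    intro u v h
    induction h with
    | refl => exact Relation.ReflTransGen.refl
    | tail _ hbc ih => exact Relation.ReflTransGen.head ⟨hbc.1.symm, hbc.2.symm⟩ ih
  have hFl : ∀ u x, π u = inl x → Relation.ReflTransGen F u x := by
    intro u x h
    by_cases hu : u ∈ D
    · rw [hπD u hu] at h
      simp only [inl.injEq] at h
      subst h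
      exact Relation.ReflTransGen.refl
    · obtain ⟨-, d, h1, h2, h3⟩ := hπl u x hu h
      refine (hFR _ _ h1).tail ⟨h2 ▸ d.adj, ?_⟩
      rw [← hπR _ _ hu h1, h, hπD x (hTD x h3)]
  have hfib : ∀ u v, π u = π v → Relation.ReflTransGen F u v := by
    intro u v h
    rcases hx : π u with x | Q
    · exact (hFl u x hx).trans (hFsymm _ _ (hFl v x (h ▸ hx)))
    · have h1 := hπr u Q hx
      have h2 := hπr v Q (h ▸ hx)
      exact hFR _ _ (cls_eq_iff.1 (h1.2.trans h2.2.symm))
  set X : Finset (V ⊕ Finset V) := T.image inl with hX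
  set Y : Finset (V ⊕ Finset V) := S.image inl ∪ (big G S T).image inr with hY
  have hXc : X.card = T.card := Finset.card_image_of_injective _ inl_injective
  have hYc : Y.card + 1 ≤ T.card := by
    have h1 : Y.card ≤ (S.image inl).card + ((big G S T).image inr).card :=
      Finset.card_union_le _ _
    have h2 : (S.image (inl : V → V ⊕ Finset V)).card ≤ S.card := Finset.card_image_le
    have h3 : ((big G S T).image (inr : Finset V → V ⊕ Finset V)).card ≤ (big G S T).card :=
      Finset.card_image_le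
    omega
  have hXY : Disjoint X Y := by
    rw [Finset.disjoint_left]
    intro x hx hy
    obtain ⟨t, ht, rfl⟩ := Finset.mem_image.1 hx
    rcases Finset.mem_union.1 hy with hy | hy
    · obtain ⟨s, hs, h⟩ := Finset.mem_image.1 hy
      simp only [inl.injEq] at h
      exact Finset.disjoint_left.1 hST hs (h ▸ ht)
    · simp at hy
  set A : V → Finset V := fun t => Finset.univ.filter (fun v => π v = inl t) with hA
  set N : V → Finset V := fun t =>
    Finset.univ.filter (fun v => v ∉ A t ∧ ∃ u ∈ A t, G.Adj u v) with hN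
  have hAm : ∀ t v, v ∈ A t ↔ π v = inl t := by intro t v; simp [hA]
  have hNm : ∀ t v, v ∈ N t ↔ π v ≠ inl t ∧ ∃ u, π u = inl t ∧ G.Adj u v := by
    intro t v; simp [hN, hAm]
  have hNc : ∀ t ∈ T, ∀ v ∈ N t, v ∈ S ∨ (v ∉ D ∧ G.Adj v t ∧ cls G D v ∈ big G S T) := by
    intro t ht v hv
    obtain ⟨h1, u, h2, h3⟩ := (hNm t v).1 hv
    by_cases hvS : v ∈ S
    · exact Or.inl hvS
    right
    by_cases hu : u ∈ D
    · rw [hπD u hu] at h2
      simp only [inl.injEq] at h2
      subst h2
      have hvD : v ∉ D := by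
        intro h
        rcases Finset.mem_union.1 h with h | h
        · exact hvS h
        · exact hind _ ht _ h h3
      refine ⟨hvD, h3.symm, ?_⟩
      by_contra hb
      exact h1 (hπs v hvD hb ⟨(v, u), h3.symm⟩ (Rch.refl _) ht)
    · exfalso
      by_cases hvD : v ∈ D
      · have hvT : v ∈ T := by
          rcases Finset.mem_union.1 hvD with h | h
          · exact absurd h hvS
          · exact h
        have := hπs u hu (hπl u t hu h2).1 ⟨(u, v), h3⟩ (Rch.refl _) hvT
        apply h1
        rw [hπD v hvD, ← h2, this]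
      · exact h1 ((hπR u v hu (Rch.single hu hvD h3)) ▸ h2)
  have hNY : ∀ t ∈ T, ∀ v ∈ N t, π v ∈ Y := by
    intro t ht v hv
    rcases hNc t ht v hv with h | ⟨h1, -, h2⟩
    · rw [hπD v (hSD v h)]
      exact Finset.mem_union_left _ (Finset.mem_image_of_mem _ h)
    · rw [hπb v h1 h2]
      exact Finset.mem_union_right _ (Finset.mem_image_of_mem _ h2)
  have hNinj : ∀ t ∈ T, Set.InjOn π (N t) := by
    intro t ht v hv w hw h
    rcases hNc t ht v hv with h1 | ⟨h1, h2, h3⟩ <;> rcases hNc t ht w hw with h4 | ⟨h4, h5, h6⟩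
    · rw [hπD v (hSD v h1), hπD w (hSD w h4)] at h
      simpa using h
    · rw [hπD v (hSD v h1), hπb w h4 h6] at h
      simp at h
    · rw [hπD w (hSD w h4), hπb v h1 h3] at h
      simp at h
    · rw [hπb w h4 h6, hπb v h1 h3] at h
      simp only [inr.injEq] at h
      exact hone t ht v w h1 h2 h5 (cls_eq_iff.1 h)
  have hNk : ∀ t ∈ T, k ≤ (N t).card := by
    intro t ht
    by_contra hn
    have h1 := hk.boundary (A t) ((hAm t t).2 (hπD t (hTD t ht))) (not_le.1 hn)
    have h2 : ∀ t' ∈ T, t' = t := by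
      intro t' ht'
      by_cases h3 : t' ∈ A t
      · rw [hAm, hπD t' (hTD t' ht')] at h3
        simpa using h3
      · exfalso
        have h4 : t' ∈ N t := by
          rcases h1 t' with h | h
          · exact absurd h h3
          · exact Finset.mem_filter.2 ⟨Finset.mem_univ _, h3, h⟩
        rcases hNc t ht t' h4 with h | h
        · exact Finset.disjoint_left.1 hST h ht'
        · exact h.1 (hTD t' ht')
    have h3 : T.card ≤ 1 := Finset.card_le_one.2 fun a ha b hb => (h2 a ha).trans (h2 b hb).symm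
    have h4 : D.card < k := by
      have : D.card ≤ S.card + T.card := Finset.card_union_le S T
      omega
    have h5 : (Finset.univ.filter (fun v => G.Adj t v)).card ≤ 1 := by
      have hS0 : S = ∅ := Finset.card_eq_zero.1 (by omega)
      have key : ∀ a, G.Adj t a → a ∉ D := by
        intro a ha h
        rcases Finset.mem_union.1 h with h | h
        · simp [hS0] at h
        · exact hind t ht a h ha
      refine Finset.card_le_one.2 fun a ha b hb => ?_
      simp only [Finset.mem_filter, Finset.mem_univ, true_and] at ha hb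
      exact hone t ht a b (key a ha) ha.symm hb.symm (hk.rch h4 (key a ha) (key b hb))
    have := hk.degree t
    omega
  obtain ⟨t0, ht0⟩ : T.Nonempty := Finset.card_pos.1 (by omega)
  have hkY : k ≤ Y.card :=
    le_trans (hNk t0 ht0) (Finset.card_le_card_of_injOn π (hNY t0 ht0) (hNinj t0 ht0))
  set P : Finset ((V ⊕ Finset V) × (V ⊕ Finset V)) :=
    T.biUnion (fun t => (N t).image (fun v => (inl t, π v))) with hP
  have hPc : k * T.card ≤ P.card := by
    rw [hP, Finset.card_biUnion]
    · rw [mul_comm, ← smul_eq_mul, ← Finset.sum_const]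
      refine Finset.sum_le_sum fun t ht => ?_
      rw [Finset.card_image_of_injOn]
      · exact hNk t ht
      · intro v hv w hw h
        exact hNinj t ht hv hw (Prod.ext_iff.1 h).2
    · intro t _ t' _ hne
      rw [Function.onFun, Finset.disjoint_left]
      intro q hq hq'
      obtain ⟨v, -, rfl⟩ := Finset.mem_image.1 hq
      obtain ⟨w, -, h⟩ := Finset.mem_image.1 hq'
      simp only [Prod.mk.injEq, inl.injEq] at h
      exact hne h.1.symm
  have hE := minor_euler (hk.connected (by omega)) M γ hγ π X Y hXY (by omega)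
    (fun u v h _ => hfib u v h) P (by
      intro q hq
      obtain ⟨t, ht, hq⟩ := Finset.mem_biUnion.1 hq
      obtain ⟨v, hv, rfl⟩ := Finset.mem_image.1 hq
      refine ⟨Finset.mem_image_of_mem _ ht, hNY t ht v hv, ?_⟩
      obtain ⟨-, u, h2, h3⟩ := (hNm t v).1 hv
      exact ⟨u, v, h3, h2, rfl⟩)
  rw [hXc] at hE
  have h1 : (k : ℤ) * T.card ≤ P.card := by exact_mod_cast hPc
  have h2 : (Y.card : ℤ) + 1 ≤ T.card := by exact_mod_cast hYc
  have h3 : (k : ℤ) ≤ Y.card := by exact_mod_cast hkY
  have h4 : (4 : ℤ) ≤ k := by exact_mod_cast hk4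
  nlinarith

end Pool.Agent.MP_aee211_co.H75
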